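import Mathlib

/-!
# The averaging functional `A n g x` and the basic properties of a density

`A β n g x = β^n ∑_w 2^{-n} g (s_w - β^n x)`, defined recursively.
-/

open MeasureTheory Filter Topology Set

namespace Helper64.BC

/-- The kernel `1 / (1 + s^2)`. -/
noncomputable def P (s : ℝ) : ℝ := 1 / (1 + s ^ 2)

lemma P_pos (s : ℝ) : 0 < P s := by unfold P; positivity

lemma P_nonneg (s : ℝ) : 0 ≤ P s := (P_pos s).le

lemma P_le_one (s : ℝ) : P s ≤ 1 := by
  unfold P
  rw [div_le_one (by positivity)]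
  nlinarith [sq_nonneg s]

lemma continuous_P : Continuous P := by
  unfold P
  refine continuous_const.div (by fun_prop) (fun s => by positivity)

lemma integrable_P : Integrable P := by
  have h := integrable_inv_one_add_sq
  refine h.congr (Eventually.of_forall fun s => ?_)
  simp [P]

lemma integral_P : ∫ s, P s = Real.pi := by
  have h := integral_univ_inv_one_add_sq
  rw [← h]
  refine integral_congr_ae (Eventually.of_forall fun s => ?_)
  simp [P]

variable {E : Type*} [NormedAddCommGroup E] [NormedSpace ℝ E]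

/-- The functional `A_n[g](x)`. -/
noncomputable def A (β : ℝ) : ℕ → (ℝ → E) → ℝ → E
  | 0, g, x => g (-x)
  | n + 1, g, x => (β / 2) • (A β n g (β * x) + A β n g (β * x - 1))

@[simp] lemma A_zero (β : ℝ) (g : ℝ → E) (x : ℝ) : A β 0 g x = g (-x) := rfl

lemma A_succ (β : ℝ) (n : ℕ) (g : ℝ → E) (x : ℝ) :
    A β (n + 1) g x = (β / 2) • (A β n g (β * x) + A β n g (β * x - 1)) := rfl

lemma A_congr (β : ℝ) (n : ℕ) {g g' : ℝ → E} (h : ∀ t, g t = g' t) (x : ℝ) :
    A β n g x = A β n g' x := by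
  have : g = g' := funext h
  rw [this]

lemma A_add (β : ℝ) (n : ℕ) (g g' : ℝ → E) (x : ℝ) :
    A β n (fun t => g t + g' t) x = A β n g x + A β n g' x := by
  induction n generalizing x with
  | zero => rfl
  | succ n ih =>
    rw [A_succ, A_succ, A_succ, ih, ih]
    module

lemma A_smul (β : ℝ) (n : ℕ) (c : ℝ) (g : ℝ → E) (x : ℝ) :
    A β n (fun t => c • g t) x = c • A β n g x := by
  induction n generalizing x with
  | zero => rfl
  | succ n ih =>
    rw [A_succ, A_succ, ih, ih]
    module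

lemma A_mul (β : ℝ) (n : ℕ) (c : ℝ) (g : ℝ → ℝ) (x : ℝ) :
    A β n (fun t => c * g t) x = c * A β n g x := A_smul β n c g x

lemma A_ofReal (β : ℝ) (n : ℕ) (g : ℝ → ℝ) (x : ℝ) :
    A β n (fun t => (g t : ℂ)) x = ((A β n g x : ℝ) : ℂ) := by
  induction n generalizing x with
  | zero => rfl
  | succ n ih =>
    rw [A_succ, A_succ, ih, ih]
    simp
    ring

lemma A_norm_le {β : ℝ} (hβ : 0 ≤ β) (n : ℕ) {g : ℝ → E} {G : ℝ → ℝ} (h : ∀ t, ‖g t‖ ≤ G t)
    (x : ℝ) : ‖A β n g x‖ ≤ A β n G x := by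
  induction n generalizing x with
  | zero => exact h _
  | succ n ih =>
    rw [A_succ, A_succ, norm_smul, Real.norm_eq_abs, abs_of_nonneg (by positivity), smul_eq_mul]
    refine mul_le_mul_of_nonneg_left ?_ (by positivity)
    exact (norm_add_le _ _).trans (add_le_add (ih _) (ih _))

lemma A_mono {β : ℝ} (hβ : 0 ≤ β) (n : ℕ) {g G : ℝ → ℝ} (h : ∀ t, g t ≤ G t)
    (x : ℝ) : A β n g x ≤ A β n G x := by
  induction n generalizing x with
  | zero => exact h _
  | succ n ih =>
    rw [A_succ, A_succ, smul_eq_mul, smul_eq_mul]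
    exact mul_le_mul_of_nonneg_left (add_le_add (ih _) (ih _)) (by positivity)

/-- The transfer operator `T g (t) = (β/2) (g(βt) + g(βt+1))`. -/
noncomputable def T (β : ℝ) (g : ℝ → E) (t : ℝ) : E := (β / 2) • (g (β * t) + g (β * t + 1))

lemma A_shift (β : ℝ) (n : ℕ) (g : ℝ → E) (x : ℝ) : A β (n + 1) g x = A β n (T β g) x := by
  induction n generalizing x with
  | zero =>
    simp only [A_succ, A_zero, T]
    have h1 : -(β * x) = β * -x := by ring
    have h2 : -(β * x - 1) = β * -x + 1 := by ring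
    rw [h1, h2]
  | succ n ih =>
    rw [A_succ, ih, ih, ← A_succ]

/-- The properties of the density of a Bernoulli convolution which are used. -/
structure IsDens (β : ℝ) (h : ℝ → ℝ) : Prop where
  meas : Measurable h
  nonneg : ∀ x, 0 ≤ h x
  int : Integrable h
  one : ∫ x, h x = 1
  supp : ∀ᵐ x, x ∉ Icc 0 (1 / (β - 1)) → h x = 0
  fe : ∀ᵐ x, h x = β / 2 * (h (β * x) + h (β * x - 1))

variable {β : ℝ} {h : ℝ → ℝ}

lemma IsDens.int_comp (hh : IsDens β h) (x : ℝ) {c : ℝ} (hc : c ≠ 0) :
    Integrable fun s => h (x + c * s) := by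
  have h1 := (hh.int.comp_add_left x).comp_mul_left' hc
  exact h1

lemma ae_comp_affine {p : ℝ → Prop} (hp : ∀ᵐ x, p x) (x : ℝ) {c : ℝ} (hc : c ≠ 0) :
    ∀ᵐ s, p (x + c * s) := by
  have h1 : ∀ᵐ y : ℝ, p (x + y) :=
    (measurePreserving_add_left volume x).quasiMeasurePreserving.ae hp
  have h2 : Measure.QuasiMeasurePreserving (fun s : ℝ => c * s) volume volume := by
    refine ⟨by fun_prop, ?_⟩
    rw [Real.map_volume_mul_left hc]
    exact Measure.smul_absolutelyContinuous
  exact h2.ae h1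

/-- The value of the functional at a convolution with the density. -/
lemma A_conv (hβ : 1 < β) (hh : IsDens β h) {ψ : ℝ → ℂ} (hψ : Continuous ψ) {M : ℝ}
    (hM : ∀ s, ‖ψ s‖ ≤ M) (n : ℕ) (x : ℝ) :
    A β n (fun t => ∫ y, ψ (t + y) * (h y : ℂ)) x =
      ∫ s, ψ s * (h (x + (β⁻¹) ^ n * s) : ℂ) := by
  have hβ0 : 0 < β := by linarith
  induction n generalizing x with
  | zero =>
    simp only [A_zero, pow_zero, one_mul]
    rw [← integral_add_left_eq_self (fun y => ψ (-x + y) * (h y : ℂ)) x]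
    refine integral_congr_ae (Eventually.of_forall fun s => ?_)
    simp
  | succ n ih =>
    rw [A_succ, ih, ih]
    have hint : ∀ z : ℝ, Integrable fun s => ψ s * (h (z + (β⁻¹) ^ n * s) : ℂ) := by
      intro z
      have h1 : Integrable fun s => (h (z + (β⁻¹) ^ n * s) : ℂ) :=
        (hh.int_comp z (by positivity)).ofReal
      exact h1.bdd_mul hψ.aestronglyMeasurable (Eventually.of_forall hM)
    rw [← integral_add (hint _) (hint _), ← integral_smul]
    refine integral_congr_ae ?_
    filter_upwards [ae_comp_affine hh.fe x (c := (β⁻¹) ^ (n + 1)) (by positivity)] with s hs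
    rw [hs]
    have h1 : β * (x + (β⁻¹) ^ (n + 1) * s) = β * x + (β⁻¹) ^ n * s := by
      rw [pow_succ]
      field_simp
    rw [h1]
    have h2 : β * x + (β⁻¹) ^ n * s - 1 = β * x - 1 + (β⁻¹) ^ n * s := by ring
    rw [h2]
    simp only [Complex.real_smul]
    push_cast
    ring

end Helper64.BC
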