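import Pool.Agent.Helper64.BC.Leb

/-!
# Fourier transform estimates
-/

open MeasureTheory Filter Topology Set Metric
open scoped ENNReal FourierTransform SchwartzMap ContDiff

namespace Helper64.BC

/-- Smooth compactly supported functions. -/
def Cc (G : ℝ → ℂ) : Prop := ContDiff ℝ ∞ G ∧ HasCompactSupport G

/-- A Schwartz function is bounded by a multiple of `P`. -/
lemma decayS (f : 𝓢(ℝ, ℂ)) : ∃ M, ∀ s, ‖f s‖ ≤ M * P s := by
  refine ⟨SchwartzMap.seminorm ℝ 0 0 f + SchwartzMap.seminorm ℝ 2 0 f, fun s => ?_⟩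
  have h0 := SchwartzMap.norm_pow_mul_le_seminorm ℝ f 0 s
  have h2 := SchwartzMap.norm_pow_mul_le_seminorm ℝ f 2 s
  rw [pow_zero, one_mul] at h0
  rw [Real.norm_eq_abs, sq_abs] at h2
  unfold P
  rw [mul_one_div, le_div_iff₀ (by positivity)]
  linarith

lemma decayC {G : ℝ → ℂ} (hG : Cc G) : ∃ M, ∀ s, ‖𝓕 G s‖ ≤ M * P s := by
  obtain ⟨M, hM⟩ := decayS (𝓕 (hG.2.toSchwartzMap hG.1))
  refine ⟨M, fun s => ?_⟩
  have := hM s
  rw [SchwartzMap.fourier_coe] at this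
  exact this

lemma continuous_fourier_of_integrable {G : ℝ → ℂ} (hG : Integrable G) : Continuous (𝓕 G) :=
  VectorFourier.fourierIntegral_continuous Real.continuous_fourierChar
    (by exact continuous_inner) hG

/-- decay from the second derivative -/
lemma fourier_second {g g1 g2 : ℝ → ℂ} (h1 : ∀ x, HasDerivAt g (g1 x) x)
    (h2 : ∀ x, HasDerivAt g1 (g2 x) x) (i0 : Integrable g) (i1 : Integrable g1)
    (i2 : Integrable g2) (s : ℝ) :
    ‖𝓕 g s‖ ≤ ((∫ x, ‖g x‖) + ∫ x, ‖g2 x‖) * P s := by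
  have e1 : deriv g = g1 := funext fun x => (h1 x).deriv
  have e2 : deriv g1 = g2 := funext fun x => (h2 x).deriv
  have f1 := Real.fourier_deriv i0 (fun x => (h1 x).differentiableAt) (by rwa [e1])
  have f2 := Real.fourier_deriv i1 (fun x => (h2 x).differentiableAt) (by rwa [e2])
  rw [e1] at f1
  rw [e2] at f2
  have f3 : 𝓕 g2 s = (2 * Real.pi * Complex.I * s) * ((2 * Real.pi * Complex.I * s) * 𝓕 g s) := by
    rw [f2]
    simp only [smul_eq_mul]
    rw [f1]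
    simp only [smul_eq_mul]
  have n0 : ‖𝓕 g s‖ ≤ ∫ x, ‖g x‖ := VectorFourier.norm_fourierIntegral_le_integral_norm _ _ _ _ _
  have n2 : ‖𝓕 g2 s‖ ≤ ∫ x, ‖g2 x‖ := VectorFourier.norm_fourierIntegral_le_integral_norm _ _ _ _ _
  have n3 : ‖(2 * Real.pi * Complex.I * s : ℂ)‖ = 2 * Real.pi * |s| := by
    simp [abs_of_pos Real.pi_pos]
  have n4 : s ^ 2 * ‖𝓕 g s‖ ≤ ∫ x, ‖g2 x‖ := by
    refine le_trans ?_ n2
    have hn : ∀ a b : ℂ, ‖a * (a * b)‖ = ‖a‖ * (‖a‖ * ‖b‖) := fun a b => by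
      rw [norm_mul, norm_mul]
    rw [f3, hn, n3, ← mul_assoc]
    refine mul_le_mul_of_nonneg_right ?_ (norm_nonneg _)
    rw [← sq_abs s]
    have := Real.pi_gt_three
    nlinarith [sq_nonneg |s|, sq_nonneg (|s| * Real.pi), mul_nonneg (sq_nonneg |s|)
      (by nlinarith : (0 : ℝ) ≤ Real.pi ^ 2 - 1)]
  unfold P
  rw [mul_one_div, le_div_iff₀ (by positivity)]
  linarith

lemma norm_fourier_scale (K : ℝ → ℂ) (t : ℝ) {δ : ℝ} (hδ : 0 < δ) (s : ℝ) :
    ‖𝓕 (fun ξ => K ((ξ - t) / δ)) s‖ = δ * ‖𝓕 K (δ * s)‖ := by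
  have e : 𝓕 (fun ξ => K ((ξ - t) / δ)) s =
      (δ : ℂ) * ((Real.fourierChar (-(t * s)) : ℂ) * 𝓕 K (δ * s)) := by
    rw [Real.fourier_real_eq, Real.fourier_real_eq]
    have h1 : (∫ v : ℝ, Real.fourierChar (-(v * s)) • K ((v - t) / δ)) =
        ∫ v : ℝ, (fun u : ℝ => Real.fourierChar (-((t + δ * u) * s)) • K u) ((v - t) / δ) := by
      refine integral_congr_ae (Eventually.of_forall fun v => ?_)
      simp only
      congr 3
      field_simp
      ring
    rw [h1]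
    have h2 := Measure.integral_comp_div
      (fun u : ℝ => Real.fourierChar (-((t + δ * u) * s)) • K u) δ
    have h3 := integral_sub_right_eq_self (fun v : ℝ =>
      (fun u : ℝ => Real.fourierChar (-((t + δ * u) * s)) • K u) (v / δ)) (μ := volume) t
    simp only at h3 h2 ⊢
    rw [h3, h2, abs_of_pos hδ, Complex.real_smul]
    congr 1
    rw [← integral_const_mul]
    refine integral_congr_ae (Eventually.of_forall fun u => ?_)
    simp only
    have h4 : -((t + δ * u) * s) = -(t * s) + -(u * (δ * s)) := by ring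
    rw [h4, AddChar.map_add_eq_mul, Circle.smul_def, Circle.smul_def, Circle.coe_mul]
    simp only [smul_eq_mul]
    ring
  rw [e, norm_mul, norm_mul, Complex.norm_real, Real.norm_eq_abs, abs_of_pos hδ, Circle.norm_coe,
    one_mul]

/-- The Fourier transform of a product with the Fourier transform of the density. -/
lemma fourier_mul_H {h : ℝ → ℂ} (hh : Integrable h) {Ψ : ℝ → ℂ} (hΨ : Integrable Ψ) (t : ℝ) :
    𝓕 (fun ξ => Ψ ξ * 𝓕 h ξ) t = ∫ y, 𝓕 Ψ (t + y) * h y := by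
  have hg : Integrable (fun ξ : ℝ => (Real.fourierChar (-(ξ * t)) : Circle) • Ψ ξ) := by
    have := (Real.fourierIntegral_convergent_iff (μ := volume) (f := Ψ) t).mpr hΨ
    refine this.congr (Eventually.of_forall fun ξ => ?_)
    simp [mul_comm]
  have key := VectorFourier.integral_fourierIntegral_smul_eq_flip (L := innerₗ ℝ)
    Real.continuous_fourierChar continuous_inner hh hg
  rw [flip_innerₗ] at key
  change ∫ ξ, 𝓕 h ξ • ((Real.fourierChar (-(ξ * t)) : Circle) • Ψ ξ) =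
    ∫ x, h x • 𝓕 (fun ξ : ℝ => (Real.fourierChar (-(ξ * t)) : Circle) • Ψ ξ) x at key
  have e1 : 𝓕 (fun ξ => Ψ ξ * 𝓕 h ξ) t =
      ∫ ξ, 𝓕 h ξ • ((Real.fourierChar (-(ξ * t)) : Circle) • Ψ ξ) := by
    rw [Real.fourier_real_eq]
    refine integral_congr_ae (Eventually.of_forall fun ξ => ?_)
    simp only [Circle.smul_def, smul_eq_mul]
    ring
  rw [e1, key]
  refine integral_congr_ae (Eventually.of_forall fun y => ?_)
  simp only [smul_eq_mul]
  rw [mul_comm]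
  congr 1
  rw [Real.fourier_real_eq, Real.fourier_real_eq]
  refine integral_congr_ae (Eventually.of_forall fun ξ => ?_)
  simp only
  have h4 : -(ξ * (t + y)) = -(ξ * t) + -(ξ * y) := by ring
  rw [h4, AddChar.map_add_eq_mul, Circle.smul_def, Circle.smul_def, Circle.smul_def, Circle.coe_mul]
  simp only [smul_eq_mul]
  ring

/-- Small perturbations. -/
lemma fourier_small (F : 𝓢(ℝ, ℂ)) {G : ℝ → ℂ} (hG : Cc G) (t : ℝ) :
    ∃ C, 0 ≤ C ∧ ∀ δ, 0 < δ → δ ≤ 1 → ∀ s,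
      ‖𝓕 (fun η => F η * (G (t + δ * η) - G t)) s‖ ≤ δ * C * P s := by
  obtain ⟨L0, hL0⟩ := ContDiff.lipschitzWith_of_hasCompactSupport (𝕂 := ℝ) hG.2 hG.1 (by simp)
  have hG1c : Continuous (deriv G) := hG.1.continuous_deriv (by simp)
  have hG1d : ContDiff ℝ ∞ (deriv G) := by
    exact (contDiff_infty_iff_deriv.mp hG.1).2
  have hG2c : Continuous (deriv (deriv G)) := hG1d.continuous_deriv (by simp)
  obtain ⟨L1, hL1⟩ := (hG.2.deriv (𝕜 := ℝ)).exists_bound_of_continuous hG1c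
  obtain ⟨L2, hL2⟩ := (hG.2.deriv (𝕜 := ℝ)).deriv.exists_bound_of_continuous hG2c
  have hL1' : 0 ≤ L1 := (norm_nonneg _).trans (hL1 0)
  have hL2' : 0 ≤ L2 := (norm_nonneg _).trans (hL2 0)
  set F1 : 𝓢(ℝ, ℂ) := SchwartzMap.derivCLM ℝ ℂ F with hF1
  set F2 : 𝓢(ℝ, ℂ) := SchwartzMap.derivCLM ℝ ℂ F1 with hF2
  have dF : ∀ x, HasDerivAt F (F1 x) x := fun x => by
    rw [hF1, SchwartzMap.derivCLM_apply]
    exact F.differentiableAt.hasDerivAt
  have dF1 : ∀ x, HasDerivAt F1 (F2 x) x := fun x => by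
    rw [hF2, SchwartzMap.derivCLM_apply]
    exact F1.differentiableAt.hasDerivAt
  have m0 : Integrable fun η : ℝ => ‖η‖ * ‖F η‖ := by
    simpa using F.integrable_pow_mul volume 1
  have m2 : Integrable fun η : ℝ => ‖η‖ * ‖F2 η‖ := by
    simpa using F2.integrable_pow_mul volume 1
  have n0 : Integrable fun η : ℝ => ‖F η‖ := F.integrable.norm
  have n1 : Integrable fun η : ℝ => ‖F1 η‖ := F1.integrable.norm
  have n2 : Integrable fun η : ℝ => ‖F2 η‖ := F2.integrable.norm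
  set C : ℝ := (L0 : ℝ) * (∫ η, ‖η‖ * ‖F η‖) + ((L0 : ℝ) * (∫ η, ‖η‖ * ‖F2 η‖) +
    2 * L1 * (∫ η, ‖F1 η‖) + L2 * ∫ η, ‖F η‖) with hC
  have i1 : 0 ≤ ∫ η : ℝ, ‖η‖ * ‖F η‖ := integral_nonneg fun _ => by positivity
  have i2 : 0 ≤ ∫ η : ℝ, ‖η‖ * ‖F2 η‖ := integral_nonneg fun _ => by positivity
  have i3 : 0 ≤ ∫ η : ℝ, ‖F1 η‖ := integral_nonneg fun _ => by positivity
  have i4 : 0 ≤ ∫ η : ℝ, ‖F η‖ := integral_nonneg fun _ => by positivity
  refine ⟨C, by positivity, fun δ hδ hδ1 s => ?_⟩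
  set V : ℝ → ℂ := fun η => G (t + δ * η) - G t with hV
  set V1 : ℝ → ℂ := fun η => (δ : ℂ) * deriv G (t + δ * η) with hV1
  set V2 : ℝ → ℂ := fun η => (δ : ℂ) * ((δ : ℂ) * deriv (deriv G) (t + δ * η)) with hV2
  have daff : ∀ η : ℝ, HasDerivAt (fun η : ℝ => t + δ * η) δ η := fun η => by
    simpa using ((hasDerivAt_id η).const_mul δ).const_add t
  have dV : ∀ η, HasDerivAt V (V1 η) η := fun η => by
    have h1 : HasDerivAt G (deriv G (t + δ * η)) (t + δ * η) :=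
      (hG.1.differentiable (by simp)).differentiableAt.hasDerivAt
    have h2 := (h1.scomp η (daff η)).sub_const (G t)
    refine h2.congr_deriv ?_
    rw [hV1]
    simp
  have dV1 : ∀ η, HasDerivAt V1 (V2 η) η := fun η => by
    have h1 : HasDerivAt (deriv G) (deriv (deriv G) (t + δ * η)) (t + δ * η) :=
      (hG1d.differentiable (by simp)).differentiableAt.hasDerivAt
    have h2 := (h1.scomp η (daff η)).const_mul (δ : ℂ)
    refine h2.congr_deriv ?_
    rw [hV2]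
    simp
  have bV : ∀ η, ‖V η‖ ≤ δ * (L0 * ‖η‖) := fun η => by
    have h1 := hL0.dist_le_mul (t + δ * η) t
    rw [dist_eq_norm, dist_eq_norm] at h1
    refine h1.trans_eq ?_
    have : t + δ * η - t = δ * η := by ring
    rw [this, norm_mul, Real.norm_eq_abs, abs_of_pos hδ]
    ring
  have bV1 : ∀ η, ‖V1 η‖ ≤ δ * L1 := fun η => by
    simp only [hV1]
    rw [norm_mul, Complex.norm_real, Real.norm_eq_abs, abs_of_pos hδ]
    exact mul_le_mul_of_nonneg_left (hL1 _) hδ.le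
  have bV2 : ∀ η, ‖V2 η‖ ≤ δ * L2 := fun η => by
    simp only [hV2]
    rw [norm_mul, norm_mul, Complex.norm_real, Real.norm_eq_abs, abs_of_pos hδ]
    refine mul_le_mul_of_nonneg_left ?_ hδ.le
    calc δ * ‖deriv (deriv G) (t + δ * η)‖ ≤ 1 * L2 :=
          mul_le_mul hδ1 (hL2 _) (norm_nonneg _) (by norm_num)
      _ = L2 := one_mul _
  have cV : Continuous V := by
    rw [continuous_iff_continuousAt]
    exact fun η => (dV η).continuousAt
  have cV1 : Continuous V1 := by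
    rw [continuous_iff_continuousAt]
    exact fun η => (dV1 η).continuousAt
  have cV2 : Continuous V2 := by
    rw [hV2]
    exact continuous_const.mul (continuous_const.mul (hG2c.comp (by fun_prop)))
  -- the function and its derivatives
  have dg : ∀ η, HasDerivAt (fun η => F η * V η) (F1 η * V η + F η * V1 η) η := fun η =>
    (dF η).mul (dV η)
  have dg1 : ∀ η, HasDerivAt (fun η => F1 η * V η + F η * V1 η)
      (F2 η * V η + F1 η * V1 η + (F1 η * V1 η + F η * V2 η)) η := fun η =>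
    ((dF1 η).mul (dV η)).add ((dF η).mul (dV1 η))
  have J : ∀ (f : 𝓢(ℝ, ℂ)) {W : ℝ → ℂ} (_ : Continuous W) {b : ℝ} (_ : ∀ η, ‖W η‖ ≤ b),
      Integrable fun η => f η * W η := by
    intro f W hW b hb
    exact f.integrable.mul_bdd hW.aestronglyMeasurable (Eventually.of_forall hb)
  have J' : ∀ (f : 𝓢(ℝ, ℂ)), Integrable fun η => f η * V η := by
    intro f
    have h1 : Integrable fun η : ℝ => δ * L0 * (‖η‖ ^ 1 * ‖f η‖) :=
      (f.integrable_pow_mul volume 1).const_mul _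
    refine h1.mono' (f.continuous.mul cV).aestronglyMeasurable (Eventually.of_forall fun η => ?_)
    rw [norm_mul, pow_one]
    calc ‖f η‖ * ‖V η‖ ≤ ‖f η‖ * (δ * (L0 * ‖η‖)) :=
          mul_le_mul_of_nonneg_left (bV η) (norm_nonneg _)
      _ = _ := by ring
  have key := fourier_second dg dg1 (J' F) ((J' F1).add (J F cV1 bV1))
    (((J' F2).add (J F1 cV1 bV1)).add ((J F1 cV1 bV1).add (J F cV2 bV2))) s
  refine key.trans (mul_le_mul_of_nonneg_right ?_ (P_nonneg s))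
  have a1 : ∫ η, ‖F η * V η‖ ≤ ∫ η, δ * ((L0 : ℝ) * (‖η‖ * ‖F η‖)) := by
    refine integral_mono (J' F).norm ((m0.const_mul _).const_mul _) (fun η => ?_)
    simp only
    rw [norm_mul]
    calc ‖F η‖ * ‖V η‖ ≤ ‖F η‖ * (δ * (L0 * ‖η‖)) :=
          mul_le_mul_of_nonneg_left (bV η) (norm_nonneg _)
      _ = _ := by ring
  have a2 : ∫ η, ‖F2 η * V η + F1 η * V1 η + (F1 η * V1 η + F η * V2 η)‖ ≤
      ∫ η, δ * ((L0 : ℝ) * (‖η‖ * ‖F2 η‖) + 2 * L1 * ‖F1 η‖ + L2 * ‖F η‖) := by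
    refine integral_mono (((J' F2).add (J F1 cV1 bV1)).add
      ((J F1 cV1 bV1).add (J F cV2 bV2))).norm
      ((((m2.const_mul _).add (n1.const_mul _)).add (n0.const_mul _)).const_mul _) (fun η => ?_)
    simp only
    have b1 : ‖F2 η * V η‖ ≤ δ * ((L0 : ℝ) * (‖η‖ * ‖F2 η‖)) := by
      rw [norm_mul]
      calc ‖F2 η‖ * ‖V η‖ ≤ ‖F2 η‖ * (δ * (L0 * ‖η‖)) :=
            mul_le_mul_of_nonneg_left (bV η) (norm_nonneg _)
        _ = _ := by ring
    have b2 : ‖F1 η * V1 η‖ ≤ δ * (L1 * ‖F1 η‖) := by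
      rw [norm_mul]
      calc ‖F1 η‖ * ‖V1 η‖ ≤ ‖F1 η‖ * (δ * L1) :=
            mul_le_mul_of_nonneg_left (bV1 η) (norm_nonneg _)
        _ = _ := by ring
    have b3 : ‖F η * V2 η‖ ≤ δ * (L2 * ‖F η‖) := by
      rw [norm_mul]
      calc ‖F η‖ * ‖V2 η‖ ≤ ‖F η‖ * (δ * L2) :=
            mul_le_mul_of_nonneg_left (bV2 η) (norm_nonneg _)
        _ = _ := by ring
    have c1 := norm_add_le (F2 η * V η + F1 η * V1 η) (F1 η * V1 η + F η * V2 η)
    have c2 := norm_add_le (F2 η * V η) (F1 η * V1 η)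
    have c3 := norm_add_le (F1 η * V1 η) (F η * V2 η)
    nlinarith
  have a3 : ∫ η, δ * ((L0 : ℝ) * (‖η‖ * ‖F η‖)) = δ * ((L0 : ℝ) * ∫ η, ‖η‖ * ‖F η‖) := by
    rw [integral_const_mul, integral_const_mul]
  have a4 : ∫ η, δ * ((L0 : ℝ) * (‖η‖ * ‖F2 η‖) + 2 * L1 * ‖F1 η‖ + L2 * ‖F η‖) =
      δ * ((L0 : ℝ) * (∫ η, ‖η‖ * ‖F2 η‖) + 2 * L1 * (∫ η, ‖F1 η‖) + L2 * ∫ η, ‖F η‖) := by
    have s1 : Integrable fun η => (L0 : ℝ) * (‖η‖ * ‖F2 η‖) + 2 * L1 * ‖F1 η‖ :=
      (m2.const_mul _).add (n1.const_mul _)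
    rw [integral_const_mul, integral_add s1
      (n0.const_mul _), integral_add (m2.const_mul _) (n1.const_mul _), integral_const_mul,
      integral_const_mul, integral_const_mul]
  rw [a3] at a1
  rw [a4] at a2
  rw [hC, mul_add]
  exact add_le_add a1 a2

end Helper64.BC
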