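import Pool.Agent.Helper64.BC.Main

/-!
# Iteration and convergence on test functions
-/

open MeasureTheory Filter Topology Set Metric
open scoped ENNReal FourierTransform SchwartzMap ContDiff

namespace Helper64.BC

variable {β : ℝ} {h : ℝ → ℝ}

/-- The effect of the transfer operator on the Fourier side. -/
noncomputable def step (β : ℝ) (G : ℝ → ℂ) (ξ : ℝ) : ℂ := G (ξ / β) * c (ξ / β)

/-- iterates -/
noncomputable def It (β : ℝ) : ℕ → (ℝ → ℂ) → (ℝ → ℂ)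
  | 0, G => G
  | m + 1, G => step β (It β m G)

lemma step_cc (hβ : 1 < β) {G : ℝ → ℂ} (hG : Cc G) : Cc (step β G) := by
  have hβ0 : β ≠ 0 := by linarith
  have hd : ContDiff ℝ ∞ fun ξ : ℝ => ξ / β := contDiff_id.div_const _
  constructor
  · exact (hG.1.comp hd).mul (contDiff_c.comp hd)
  · have h1 : HasCompactSupport fun ξ : ℝ => G (ξ / β) := by
      have := hG.2.comp_homeomorph (Homeomorph.mulRight₀ β⁻¹ (inv_ne_zero hβ0))
      exact this
    exact h1.mul_right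

lemma It_cc (hβ : 1 < β) {G : ℝ → ℂ} (hG : Cc G) (m : ℕ) : Cc (It β m G) := by
  induction m with
  | zero => exact hG
  | succ m ih => exact step_cc hβ ih

lemma T_fourier (hβ : 1 < β) {G : ℝ → ℂ} (hG : Cc G) (t : ℝ) :
    T β (𝓕 G) t = 𝓕 (step β G) t := by
  have hβ0 : 0 < β := by linarith
  unfold T
  rw [fourier_ex, fourier_ex, fourier_ex]
  obtain ⟨Φ, hΦ⟩ : ∃ Φ : ℝ → ℂ, Φ = fun η => ex (-(η * (β * t))) * (G η * c η) := ⟨_, rfl⟩
  have e1 : ∫ v : ℝ, ex (-(v * t)) * step β G v = ∫ v : ℝ, Φ (v / β) := by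
    refine integral_congr_ae (Eventually.of_forall fun v => ?_)
    simp only [hΦ, step]
    congr 3
    field_simp
  rw [e1, Measure.integral_comp_div, abs_of_pos hβ0, hΦ]
  have i0 := int_ex hG.integrable (β * t)
  have i1 := int_ex hG.integrable (β * t + 1)
  rw [← integral_add i0 i1]
  have e2 : ∫ η : ℝ, (ex (-(η * (β * t))) * G η + ex (-(η * (β * t + 1))) * G η) =
      ∫ η : ℝ, (2 : ℂ) * (ex (-(η * (β * t))) * (G η * c η)) := by
    refine integral_congr_ae (Eventually.of_forall fun η => ?_)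
    simp only [c]
    have : -(η * (β * t + 1)) = -(η * (β * t)) + -η := by ring
    rw [this, ex_add]
    ring
  rw [e2, integral_const_mul]
  simp only [Complex.real_smul]
  push_cast
  ring

lemma A_iter (hβ : 1 < β) {G : ℝ → ℂ} (hG : Cc G) (m n : ℕ) (x : ℝ) :
    A β (n + m) (𝓕 G) x = A β n (𝓕 (It β m G)) x := by
  induction m generalizing n with
  | zero => rfl
  | succ m ih =>
    have e1 : n + (m + 1) = (n + 1) + m := by ring
    rw [e1, ih (n + 1), A_shift]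
    exact A_congr β n (T_fourier hβ (It_cc hβ hG m)) x

lemma It_zero (β : ℝ) (G : ℝ → ℂ) (m : ℕ) : It β m G 0 = G 0 := by
  induction m with
  | zero => rfl
  | succ m ih => simp only [It, step, zero_div, c_zero, mul_one, ih]

lemma It_value (hβ : 1 < β) (G : ℝ → ℂ) (m : ℕ) (u : ℝ) :
    ‖It β m G (β ^ m * u)‖ = ‖G u‖ * q β m u := by
  have hβ0 : β ≠ 0 := by linarith
  induction m with
  | zero => rw [pow_zero, one_mul, q_zero, mul_one]; rfl
  | succ m ih =>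
    have e1 : β ^ (m + 1) * u / β = β ^ m * u := by
      rw [pow_succ]
      field_simp
    simp only [It, step]
    rw [e1, norm_mul, ih, q_succ, mul_assoc]

lemma It_zeros (hβ : 1 < β) (hh : IsDens β h) (G : ℝ → ℂ) (m : ℕ) (t : ℝ) (ht : H h t = 0)
    (hG : It β m G t ≠ 0) : H h (t / β ^ m) = 0 ∧ G (t / β ^ m) ≠ 0 := by
  induction m generalizing t with
  | zero => simpa using ⟨ht, hG⟩
  | succ m ih =>
    simp only [It, step] at hG
    have h1 : It β m G (t / β) ≠ 0 := left_ne_zero_of_mul hG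
    have h2 : c (t / β) ≠ 0 := right_ne_zero_of_mul hG
    rw [H_div hβ hh] at ht
    have h3 : H h (t / β) = 0 := (mul_eq_zero.mp ht).resolve_right h2
    have h4 := ih (t / β) h3 h1
    have e1 : t / β / β ^ m = t / β ^ (m + 1) := by rw [pow_succ, div_div, mul_comm]
    rwa [e1] at h4

/-- For a compactly supported function the zeros of `H` in its support form a finite set. -/
lemma exists_zero_finset (hβ : 1 < β) (hh : IsDens β h) {G : ℝ → ℂ} (hG : Cc G) :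
    ∃ S : Finset ℝ, (0 : ℝ) ∉ S ∧ (∀ ξ ∈ S, H h ξ = 0) ∧
      ∀ ξ ∈ tsupport G, H h ξ = 0 → ξ ∈ S := by
  obtain ⟨R, hR⟩ := hG.2.isCompact.isBounded.subset_closedBall (0 : ℝ)
  have hfin := finite_zeros hβ hh R
  refine ⟨hfin.toFinset, ?_, ?_, ?_⟩
  · rw [Set.Finite.mem_toFinset]
    rintro ⟨-, h0⟩
    rw [H_zero hh] at h0
    exact one_ne_zero h0
  · intro ξ hξ
    rw [Set.Finite.mem_toFinset] at hξ
    exact hξ.2
  · intro ξ hξ h0
    rw [Set.Finite.mem_toFinset]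
    refine ⟨?_, h0⟩
    have := hR hξ
    rwa [mem_closedBall, dist_zero_right, Real.norm_eq_abs] at this

/-- Convergence on Fourier transforms of smooth compactly supported functions. -/
lemma tendsto_fourier (hβ : 1 < β) (hβ2 : β < 2) (hh : IsDens β h) {x : ℝ} (hx : Leb β h x)
    {G : ℝ → ℂ} (hG : Cc G) :
    Tendsto (fun n => A β n (𝓕 G) x) atTop (𝓝 ((h x : ℂ) * G 0)) := by
  have hβ0 : 0 < β := by linarith
  obtain ⟨M, hM⟩ := decayC κ_cc
  have hM0 : 0 ≤ M := nonneg_of_mul_nonneg_left ((norm_nonneg _).trans (hM 0)) (P_pos 0)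
  have hch : 0 ≤ C1 β * h x := mul_nonneg (C1_pos β).le (hh.nonneg x)
  obtain ⟨S, hS0, hSz, hS⟩ := exists_zero_finset hβ hh hG
  -- error bound after `m` iterations
  have hbound : ∀ m, Err β h x (It β m G)
      ((∑ u ∈ S, ‖G u‖ * q β m u) * (M * (C1 β * h x))) := by
    intro m ε hε
    obtain ⟨S', hS0', hSz', hS'⟩ := exists_zero_finset hβ hh (It_cc hβ hG m)
    filter_upwards [err_zeros hβ hh hx hM S' (It_cc hβ hG m) hS0' hS' ε hε] with n hn
    refine hn.trans ?_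
    gcongr ?_ * _ + _
    classical
    have e1 : ∑ t ∈ S', ‖It β m G t‖ = ∑ t ∈ S'.filter (fun t => ‖It β m G t‖ ≠ 0),
        ‖It β m G t‖ := (Finset.sum_filter_ne_zero S').symm
    have e2 : ∑ u ∈ S, ‖G u‖ * q β m u = ∑ t ∈ S.image (fun u => β ^ m * u), ‖It β m G t‖ := by
      rw [Finset.sum_image]
      · exact Finset.sum_congr rfl fun u _ => (It_value hβ G m u).symm
      · intro u _ v _ huv
        exact mul_left_cancel₀ (by positivity : β ^ m ≠ 0) huv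
    rw [e1, e2]
    refine Finset.sum_le_sum_of_subset_of_nonneg ?_ (fun _ _ _ => norm_nonneg _)
    intro t ht
    rw [Finset.mem_filter] at ht
    obtain ⟨ht1, ht2⟩ := ht
    have ht3 : It β m G t ≠ 0 := fun h0 => ht2 (by rw [h0, norm_zero])
    obtain ⟨h1, h2⟩ := It_zeros hβ hh G m t (hSz' t ht1) ht3
    rw [Finset.mem_image]
    refine ⟨t / β ^ m, hS _ (subset_tsupport _ h2) h1, ?_⟩
    field_simp
  have hsum : Tendsto (fun m => (∑ u ∈ S, ‖G u‖ * q β m u) * (M * (C1 β * h x))) atTop (𝓝 0) := by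
    have h1 : Tendsto (fun m => ∑ u ∈ S, ‖G u‖ * q β m u) atTop (𝓝 (∑ _u ∈ S, (0 : ℝ))) := by
      refine tendsto_finsetSum _ fun u hu => ?_
      have := (q_tendsto hβ hβ2 hh (hSz u hu)).const_mul ‖G u‖
      simpa using this
    rw [Finset.sum_const_zero] at h1
    simpa using h1.mul_const (M * (C1 β * h x))
  rw [Metric.tendsto_nhds]
  intro ε hε
  obtain ⟨m, hm⟩ := (hsum.eventually (gt_mem_nhds (by positivity : 0 < ε / 2))).exists
  have h1 := hbound m (ε / 4) (by positivity)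
  rw [eventually_atTop] at h1 ⊢
  obtain ⟨n0, hn0⟩ := h1
  refine ⟨n0 + m, fun n hn => ?_⟩
  obtain ⟨n', rfl⟩ : ∃ n', n = n' + m := ⟨n - m, by omega⟩
  have h2 := hn0 n' (by omega)
  rw [It_zero] at h2
  rw [dist_eq_norm, A_iter hβ hG]
  linarith

/-- Convergence on test functions. -/
lemma tendsto_test (hβ : 1 < β) (hβ2 : β < 2) (hh : IsDens β h) {x : ℝ} (hx : Leb β h x)
    {φ : ℝ → ℂ} (hφ : Cc φ) :
    Tendsto (fun n => A β n φ x) atTop (𝓝 ((h x : ℂ) * ∫ s, φ s)) := by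
  have hβ0 : 0 ≤ β := by linarith
  have hch : 0 ≤ C1 β * h x := mul_nonneg (C1_pos β).le (hh.nonneg x)
  set φS : 𝓢(ℝ, ℂ) := hφ.2.toSchwartzMap hφ.1 with hφS
  set Φ : 𝓢(ℝ, ℂ) := 𝓕⁻ φS with hΦ
  have hFΦ : ∀ s, 𝓕 (Φ : ℝ → ℂ) s = φ s := by
    intro s
    have h1 : 𝓕 Φ = φS := by
      rw [hΦ]
      exact FourierTransform.fourier_fourierInv_eq φS
    have h2 : (𝓕 Φ : 𝓢(ℝ, ℂ)) s = φS s := by rw [h1]
    rw [SchwartzMap.fourier_coe] at h2
    exact h2
  have hΦ0 : Φ 0 = ∫ s, φ s := by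
    have h1 : Φ 0 = (𝓕⁻ (φS : ℝ → ℂ)) 0 := by
      rw [hΦ, SchwartzMap.fourierInv_coe]
    rw [h1, Real.fourierInv_eq]
    refine integral_congr_ae (Eventually.of_forall fun s => ?_)
    simp [hφS]
  obtain ⟨C, hC, hsm⟩ := fourier_small Φ κ_cc 0
  rw [Metric.tendsto_nhds]
  intro ε hε
  -- choose the truncation
  obtain ⟨δ, hδ, hδ1, hδC⟩ : ∃ δ : ℝ, 0 < δ ∧ δ ≤ 1 ∧ δ * C * (C1 β * h x + 1) ≤ ε / 2 := by
    set Q := C * (C1 β * h x + 1) with hQ
    have hQ0 : 0 ≤ Q := by positivity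
    refine ⟨min 1 (ε / 2 / (Q + 1)), by positivity, min_le_left _ _, ?_⟩
    calc min 1 (ε / 2 / (Q + 1)) * C * (C1 β * h x + 1)
        = min 1 (ε / 2 / (Q + 1)) * Q := by rw [hQ]; ring
      _ ≤ (ε / 2 / (Q + 1)) * Q := mul_le_mul_of_nonneg_right (min_le_right _ _) hQ0
      _ = (Q / (Q + 1)) * (ε / 2) := by ring
      _ ≤ 1 * (ε / 2) := by
        gcongr
        rw [div_le_one (by positivity)]
        linarith
      _ = ε / 2 := one_mul _
  have hκd : ContDiff ℝ ∞ fun ξ : ℝ => κ (0 + δ * ξ) :=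
    κ_cc.1.comp (contDiff_const.add (contDiff_const.mul contDiff_id))
  set Gδ : ℝ → ℂ := fun ξ => Φ ξ * κ (0 + δ * ξ) with hGδ
  have hκs : HasCompactSupport fun ξ : ℝ => κ (0 + δ * ξ) := by
    have h9 := κ_cc.2.comp_homeomorph (Homeomorph.mulLeft₀ δ hδ.ne')
    have h8 : (κ ∘ (Homeomorph.mulLeft₀ δ hδ.ne')) = fun ξ : ℝ => κ (0 + δ * ξ) := by
      funext ξ
      simp
    rwa [h8] at h9
  have hGc : Cc Gδ := ⟨(Φ.smooth ⊤).mul hκd, hκs.mul_left⟩
  have hG0 : Gδ 0 = ∫ s, φ s := by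
    simp only [hGδ]
    rw [mul_zero, add_zero, κ_zero, mul_one, hΦ0]
  have h1 := tendsto_fourier hβ hβ2 hh hx hGc
  rw [hG0, Metric.tendsto_nhds] at h1
  filter_upwards [h1 (ε / 2) (by positivity), P_A_le hβ hh hx one_pos le_rfl (ε := 1) one_pos]
    with n a1 a2
  have i1 : Integrable fun ξ => Φ ξ * (κ (0 + δ * ξ) - κ 0) := by
    refine Φ.integrable.mul_bdd (c := 1) ?_ (Eventually.of_forall fun ξ => ?_)
    · exact (hκd.continuous.sub continuous_const).aestronglyMeasurable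
    · rw [κ_zero, ← norm_neg, neg_sub]
      exact norm_one_sub_κ _
  have i2 : Integrable fun ξ => -(Φ ξ * (κ (0 + δ * ξ) - κ 0)) := i1.neg
  have hdec : ∀ s, φ s = 𝓕 Gδ s + -𝓕 (fun ξ => Φ ξ * (κ (0 + δ * ξ) - κ 0)) s := by
    intro s
    rw [← hFΦ s]
    have h2 : (Φ : ℝ → ℂ) = fun ξ => Gδ ξ + -(Φ ξ * (κ (0 + δ * ξ) - κ 0)) := by
      funext ξ
      simp only [hGδ]
      rw [κ_zero]
      ring
    have h3 : 𝓕 (fun ξ => -(Φ ξ * (κ (0 + δ * ξ) - κ 0))) s =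
        -𝓕 (fun ξ => Φ ξ * (κ (0 + δ * ξ) - κ 0)) s := by
      rw [fourier_ex, fourier_ex, ← integral_neg]
      refine integral_congr_ae (Eventually.of_forall fun ξ => ?_)
      simp only
      ring
    calc 𝓕 (Φ : ℝ → ℂ) s = 𝓕 (fun ξ => Gδ ξ + -(Φ ξ * (κ (0 + δ * ξ) - κ 0))) s := by rw [← h2]
      _ = _ := by rw [fourier_add' hGc.integrable i2 s, h3]
  have e1 : A β n φ x = A β n (𝓕 Gδ) x +
      A β n (fun s => -𝓕 (fun ξ => Φ ξ * (κ (0 + δ * ξ) - κ 0)) s) x := by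
    rw [← A_add]
    exact A_congr β n hdec x
  have e2 : ‖A β n (fun s => -𝓕 (fun ξ => Φ ξ * (κ (0 + δ * ξ) - κ 0)) s) x‖ ≤
      A β n (fun s => δ * C * (1 * P (1 * s))) x := by
    refine A_norm_le hβ0 n (fun s => ?_) x
    rw [norm_neg, one_mul, one_mul]
    exact hsm δ hδ hδ1 s
  rw [A_mul] at e2
  have e3 : δ * C * A β n (fun s => 1 * P (1 * s)) x ≤ ε / 2 :=
    (mul_le_mul_of_nonneg_left a2 (by positivity)).trans hδC
  rw [dist_eq_norm] at a1 ⊢
  rw [e1]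
  have e4 : A β n (𝓕 Gδ) x + A β n (fun s => -𝓕 (fun ξ => Φ ξ * (κ (0 + δ * ξ) - κ 0)) s) x -
      (h x : ℂ) * ∫ s, φ s = (A β n (𝓕 Gδ) x - (h x : ℂ) * ∫ s, φ s) +
      A β n (fun s => -𝓕 (fun ξ => Φ ξ * (κ (0 + δ * ξ) - κ 0)) s) x := by ring
  rw [e4]
  refine (norm_add_le _ _).trans_lt ?_
  linarith

end Helper64.BC
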