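import Pool.Agent.Helper64.BC.Basic

/-!
# Lebesgue points
-/

open MeasureTheory Filter Topology Set Metric
open scoped ENNReal

namespace Helper64.BC

variable {β : ℝ} {h : ℝ → ℝ}

/-- `x` is a good point. -/
def Leb (β : ℝ) (h : ℝ → ℝ) (x : ℝ) : Prop :=
  Tendsto (fun n : ℕ => ∫ s, P s * |h (x + (β⁻¹) ^ n * s) - h x|) atTop (𝓝 0)

/-- average over a ball -/
noncomputable def av (h : ℝ → ℝ) (x ε : ℝ) : ℝ := ⨍ y in closedBall x ε, ‖h y - h x‖

lemma av_nonneg (h : ℝ → ℝ) (x ε : ℝ) : 0 ≤ av h x ε := by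
  unfold av
  rw [setAverage_eq]
  exact smul_nonneg (by positivity) (integral_nonneg fun _ => norm_nonneg _)

lemma av_eq (h : ℝ → ℝ) (x : ℝ) {ε : ℝ} (hε : 0 < ε) :
    2 * ε * av h x ε = ∫ y in closedBall x ε, ‖h y - h x‖ := by
  unfold av
  rw [setAverage_eq, Measure.real, Real.volume_closedBall, ENNReal.toReal_ofReal (by positivity),
    smul_eq_mul, ← mul_assoc, mul_inv_cancel₀ (by positivity), one_mul]

lemma av_bound (hh : IsDens β h) (x : ℝ) {ε : ℝ} (hε : 0 < ε) :
    av h x ε ≤ 1 / (2 * ε) + h x := by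
  have h1 := av_eq h x hε
  have hI : IntegrableOn (fun _ : ℝ => h x) (closedBall x ε) := by
    rw [integrableOn_const_iff]
    right
    exact measure_closedBall_lt_top
  have h2 : ∫ y in closedBall x ε, ‖h y - h x‖ ≤ ∫ y in closedBall x ε, (h y + h x) := by
    refine setIntegral_mono_on ?_ ?_ isClosed_closedBall.measurableSet ?_
    · exact (hh.int.integrableOn.sub hI).norm
    · exact hh.int.integrableOn.add hI
    · intro y _
      have := hh.nonneg y
      have := hh.nonneg x
      rw [Real.norm_eq_abs, abs_le]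
      constructor <;> linarith
  have h3 : ∫ y in closedBall x ε, (h y + h x) ≤ 1 + 2 * ε * h x := by
    rw [integral_add hh.int.integrableOn hI]
    have h4 : ∫ y in closedBall x ε, h y ≤ 1 := by
      rw [← hh.one]
      exact setIntegral_le_integral hh.int (Eventually.of_forall hh.nonneg)
    have h5 : ∫ y in closedBall x ε, h x = 2 * ε * h x := by
      rw [setIntegral_const, Measure.real, Real.volume_closedBall,
        ENNReal.toReal_ofReal (by positivity), smul_eq_mul]
    rw [h5]
    linarith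
  have h6 : 2 * ε * av h x ε ≤ 2 * ε * (1 / (2 * ε) + h x) := by
    rw [h1]
    refine h2.trans (h3.trans_eq ?_)
    field_simp
  exact le_of_mul_le_mul_left h6 (by positivity)

lemma ball_integral (h : ℝ → ℝ) (x : ℝ) {c R : ℝ} (hc : 0 < c) (hR : 0 < R) :
    ∫ s in closedBall (0 : ℝ) R, |h (x + c * s) - h x| = 2 * R * av h x (c * R) := by
  have h1 := av_eq h x (ε := c * R) (by positivity)
  have h2 : ∫ y in closedBall x (c * R), ‖h y - h x‖ =
      ∫ y, (closedBall x (c * R)).indicator (fun y => ‖h y - h x‖) y := by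
    rw [integral_indicator isClosed_closedBall.measurableSet]
  have h3 : ∫ s in closedBall (0 : ℝ) R, |h (x + c * s) - h x| =
      ∫ s, (closedBall x (c * R)).indicator (fun y => ‖h y - h x‖) (x + c * s) := by
    rw [← integral_indicator isClosed_closedBall.measurableSet]
    refine integral_congr_ae (Eventually.of_forall fun s => ?_)
    have e : s ∈ closedBall (0 : ℝ) R ↔ x + c * s ∈ closedBall x (c * R) := by
      rw [mem_closedBall, mem_closedBall, Real.dist_eq, Real.dist_eq]
      have : x + c * s - x = c * (s - 0) := by ring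
      rw [this, abs_mul, abs_of_pos hc]
      constructor
      · intro h; exact mul_le_mul_of_nonneg_left h hc.le
      · intro h; exact le_of_mul_le_mul_left h hc
    by_cases hs : s ∈ closedBall (0 : ℝ) R
    · simp only [indicator_of_mem hs, indicator_of_mem (e.mp hs), Real.norm_eq_abs]
    · simp only [indicator_of_notMem hs, indicator_of_notMem (fun H => hs (e.mpr H))]
  have h4 := Measure.integral_comp_mul_left
    (fun z => (closedBall x (c * R)).indicator (fun y => ‖h y - h x‖) (x + z)) c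
  rw [integral_add_left_eq_self (fun z => (closedBall x (c * R)).indicator
    (fun y => ‖h y - h x‖) z) x] at h4
  rw [h3, h4, ← h2, ← h1, abs_of_pos (by positivity : 0 < c⁻¹), smul_eq_mul]
  field_simp

lemma P_le_dyadic (s : ℝ) : ∃ k : ℕ, s ∈ closedBall (0 : ℝ) (2 ^ k) ∧ P s ≤ 4 / 4 ^ k := by
  by_cases hs : |s| ≤ 1
  · refine ⟨0, ?_, ?_⟩
    · rw [mem_closedBall, Real.dist_eq]
      simpa using hs
    · have := P_le_one s
      norm_num
      linarith
  · push Not at hs
    obtain ⟨n, h1, h2⟩ := exists_nat_pow_near hs.le (by norm_num : (1 : ℝ) < 2)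
    refine ⟨n + 1, ?_, ?_⟩
    · rw [mem_closedBall, Real.dist_eq]
      simpa using h2.le
    · unfold P
      have h3 : (4 : ℝ) ^ n ≤ s ^ 2 := by
        rw [← sq_abs s]
        calc (4 : ℝ) ^ n = (2 ^ n) ^ 2 := by rw [← pow_mul, mul_comm, pow_mul]; norm_num
          _ ≤ |s| ^ 2 := by gcongr
      rw [div_le_div_iff₀ (by positivity) (by positivity), pow_succ]
      nlinarith [sq_nonneg s]

lemma int_PPhi (hh : IsDens β h) (x : ℝ) {c : ℝ} (hc : 0 < c) :
    Integrable fun s => P s * |h (x + c * s) - h x| := by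
  have h1 : Integrable fun s => P s * h (x + c * s) :=
    (hh.int_comp x hc.ne').bdd_mul (c := 1) continuous_P.aestronglyMeasurable
      (Eventually.of_forall fun s => by
        rw [Real.norm_eq_abs, abs_of_nonneg (P_nonneg s)]; exact P_le_one s)
  have h2 : Integrable fun s => P s * h x := integrable_P.mul_const _
  refine (h1.sub h2).abs.congr (Eventually.of_forall fun s => ?_)
  simp only [Pi.sub_apply]
  rw [← mul_sub, abs_mul, abs_of_nonneg (P_nonneg s)]

lemma dyadic_bound (hh : IsDens β h) (x : ℝ) {c : ℝ} (hc : 0 < c)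
    (hsum : Summable fun k : ℕ => 8 / 2 ^ k * av h x (c * 2 ^ k)) :
    ∫ s, P s * |h (x + c * s) - h x| ≤ ∑' k : ℕ, 8 / 2 ^ k * av h x (c * 2 ^ k) := by
  have hterm : ∀ k : ℕ, ∫⁻ s, (closedBall (0 : ℝ) (2 ^ k)).indicator
      (fun s => ENNReal.ofReal (4 / 4 ^ k * |h (x + c * s) - h x|)) s =
      ENNReal.ofReal (8 / 2 ^ k * av h x (c * 2 ^ k)) := by
    intro k
    rw [lintegral_indicator isClosed_closedBall.measurableSet,
      ← ofReal_integral_eq_lintegral_ofReal]
    · rw [integral_const_mul, ball_integral h x hc (by positivity)]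
      congr 1
      have : (4 : ℝ) ^ k = 2 ^ k * 2 ^ k := by rw [← mul_pow]; norm_num
      rw [this]
      field_simp
      norm_num
      ring
    · refine Integrable.const_mul ?_ _
      have h1 : IntegrableOn (fun s => h (x + c * s)) (closedBall 0 (2 ^ k)) :=
        (hh.int_comp x hc.ne').integrableOn
      have h2 : IntegrableOn (fun _ : ℝ => h x) (closedBall (0 : ℝ) (2 ^ k)) := by
        rw [integrableOn_const_iff]
        right
        exact measure_closedBall_lt_top
      exact (h1.sub h2).abs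
    · exact Eventually.of_forall fun s => by positivity
  have hle : ENNReal.ofReal (∫ s, P s * |h (x + c * s) - h x|) ≤
      ENNReal.ofReal (∑' k : ℕ, 8 / 2 ^ k * av h x (c * 2 ^ k)) := by
    rw [ofReal_integral_eq_lintegral_ofReal (int_PPhi hh x hc)
      (Eventually.of_forall fun s => mul_nonneg (P_nonneg s) (abs_nonneg _))]
    rw [ENNReal.ofReal_tsum_of_nonneg (fun k => mul_nonneg (by positivity) (av_nonneg _ _ _)) hsum]
    simp_rw [← hterm]
    rw [← lintegral_tsum]
    · refine lintegral_mono fun s => ?_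
      obtain ⟨k, hk1, hk2⟩ := P_le_dyadic s
      refine le_trans ?_ (ENNReal.le_tsum k)
      rw [indicator_of_mem hk1]
      exact ENNReal.ofReal_le_ofReal (mul_le_mul_of_nonneg_right hk2 (abs_nonneg _))
    · intro k
      refine AEMeasurable.indicator ?_ isClosed_closedBall.measurableSet
      refine Measurable.aemeasurable ?_
      refine ENNReal.measurable_ofReal.comp ?_
      have := hh.meas
      fun_prop
  rwa [ENNReal.ofReal_le_ofReal_iff] at hle
  exact tsum_nonneg fun k => mul_nonneg (by positivity) (av_nonneg _ _ _)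

/-- Almost every point is good. -/
lemma ae_leb (hβ : 1 < β) (hh : IsDens β h) : ∀ᵐ x, Leb β h x := by
  have hβ0 : 0 < β := by linarith
  filter_upwards [IsUnifLocDoublingMeasure.ae_tendsto_average_norm_sub (volume : Measure ℝ)
    hh.int.locallyIntegrable 1] with x hx
  have h0 : Tendsto (av h x) (𝓝[>] 0) (𝓝 0) := by
    refine hx (fun _ => x) id tendsto_id ?_
    filter_upwards [self_mem_nhdsWithin] with ε hε
    rw [mem_closedBall, dist_self]
    have : (0 : ℝ) < ε := hε
    simp only [id]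
    linarith
  obtain ⟨B, hB⟩ : ∃ B, ∀ ε, 0 < ε → av h x ε ≤ B := by
    have h1 : ∀ᶠ ε in 𝓝[>] (0 : ℝ), av h x ε < 1 := h0.eventually (gt_mem_nhds one_pos)
    obtain ⟨η, hη, h2⟩ := mem_nhdsGT_iff_exists_Ioo_subset.mp h1
    have hη0 : (0 : ℝ) < η := hη
    refine ⟨1 + (1 / (2 * η) + h x), fun ε hε => ?_⟩
    have hnn : 0 ≤ 1 / (2 * η) + h x := add_nonneg (by positivity) (hh.nonneg x)
    by_cases hlt : ε < η
    · have : av h x ε < 1 := h2 ⟨hε, hlt⟩
      linarith
    · push Not at hlt
      have := av_bound hh x hε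
      have h3 : 1 / (2 * ε) ≤ 1 / (2 * η) := by
        apply one_div_le_one_div_of_le (by positivity)
        linarith
      linarith
  have hgeo : Summable fun k : ℕ => 8 / (2 : ℝ) ^ k * B := by
    have : Summable fun k : ℕ => ((1 : ℝ) / 2) ^ k :=
      summable_geometric_of_lt_one (by norm_num) (by norm_num)
    refine ((this.mul_left 8).mul_right B).congr fun k => ?_
    rw [div_pow, one_pow]
    ring
  have hsum : ∀ c : ℝ, 0 < c → Summable fun k : ℕ => 8 / 2 ^ k * av h x (c * 2 ^ k) := by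
    intro c hc
    refine Summable.of_nonneg_of_le (fun k => mul_nonneg (by positivity) (av_nonneg _ _ _))
      (fun k => ?_) hgeo
    exact mul_le_mul_of_nonneg_left (hB _ (by positivity)) (by positivity)
  have hlim : Tendsto (fun n : ℕ => ∑' k : ℕ, 8 / 2 ^ k * av h x ((β⁻¹) ^ n * 2 ^ k)) atTop
      (𝓝 (∑' _ : ℕ, (0 : ℝ))) := by
    refine tendsto_tsum_of_dominated_convergence hgeo (fun k => ?_) (Eventually.of_forall
      fun n k => ?_)
    · have h1 : Tendsto (fun n : ℕ => (β⁻¹) ^ n * 2 ^ k) atTop (𝓝[>] (0 : ℝ)) := by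
        refine tendsto_nhdsWithin_iff.mpr ⟨?_, Eventually.of_forall fun n => ?_⟩
        · have h := (tendsto_pow_atTop_nhds_zero_of_lt_one (r := β⁻¹) (by positivity)
            (inv_lt_one_of_one_lt₀ hβ)).mul_const ((2 : ℝ) ^ k)
          simpa using h
        · rw [mem_Ioi]
          positivity
      have h2 := (h0.comp h1).const_mul (8 / (2 : ℝ) ^ k)
      simpa using h2
    · rw [Real.norm_eq_abs, abs_of_nonneg (mul_nonneg (by positivity) (av_nonneg _ _ _))]
      exact mul_le_mul_of_nonneg_left (hB _ (by positivity)) (by positivity)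
  rw [tsum_zero] at hlim
  refine tendsto_of_tendsto_of_tendsto_of_le_of_le tendsto_const_nhds hlim (fun n => ?_)
    (fun n => ?_)
  · exact integral_nonneg fun s => mul_nonneg (P_nonneg s) (abs_nonneg _)
  · exact dyadic_bound hh x (by positivity) (hsum _ (by positivity))

lemma conv_tendsto (hβ : 1 < β) (hh : IsDens β h) {x : ℝ} (hx : Leb β h x) {ψ : ℝ → ℂ}
    (hψ : Continuous ψ) {M : ℝ} (hM : ∀ s, ‖ψ s‖ ≤ M * P s) :
    Tendsto (fun n => A β n (fun t => ∫ y, ψ (t + y) * (h y : ℂ)) x) atTop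
      (𝓝 ((h x : ℂ) * ∫ s, ψ s)) := by
  have hβ0 : 0 < β := by linarith
  have hM0 : 0 ≤ M := by
    have h1 := (norm_nonneg _).trans (hM 0)
    exact nonneg_of_mul_nonneg_left h1 (P_pos 0)
  have hM' : ∀ s, ‖ψ s‖ ≤ M := fun s => (hM s).trans (mul_le_of_le_one_right hM0 (P_le_one s))
  have hψi : Integrable ψ := by
    refine (integrable_P.const_mul M).mono' hψ.aestronglyMeasurable (Eventually.of_forall hM)
  rw [tendsto_iff_norm_sub_tendsto_zero]
  have hlim : Tendsto (fun n : ℕ => M * ∫ s, P s * |h (x + (β⁻¹) ^ n * s) - h x|) atTop (𝓝 0) := by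
    have := Tendsto.const_mul M hx
    simpa using this
  refine tendsto_of_tendsto_of_tendsto_of_le_of_le tendsto_const_nhds hlim
    (fun n => norm_nonneg _) (fun n => ?_)
  simp only
  rw [A_conv hβ hh hψ hM' n x]
  have hint : Integrable fun s => ψ s * (h (x + (β⁻¹) ^ n * s) : ℂ) := by
    have h1 : Integrable fun s => (h (x + (β⁻¹) ^ n * s) : ℂ) :=
      (hh.int_comp x (by positivity)).ofReal
    exact h1.bdd_mul hψ.aestronglyMeasurable (Eventually.of_forall hM')
  have e : (∫ s, ψ s * (h (x + (β⁻¹) ^ n * s) : ℂ)) - (h x : ℂ) * ∫ s, ψ s =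
      ∫ s, ψ s * ((h (x + (β⁻¹) ^ n * s) : ℂ) - (h x : ℂ)) := by
    rw [mul_comm, ← integral_mul_const, ← integral_sub hint (hψi.mul_const _)]
    refine integral_congr_ae (Eventually.of_forall fun s => ?_)
    simp only
    ring
  rw [e, ← integral_const_mul]
  refine norm_integral_le_of_norm_le ((int_PPhi hh x (by positivity)).const_mul M)
    (Eventually.of_forall fun s => ?_)
  rw [norm_mul, ← Complex.ofReal_sub, Complex.norm_real, Real.norm_eq_abs, ← mul_assoc]
  exact mul_le_mul_of_nonneg_right (hM s) (abs_nonneg _)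

lemma P_scale_le {δ : ℝ} (hδ : 0 < δ) (hδ1 : δ ≤ 1) (s : ℝ) : δ * P (δ * s) ≤ δ⁻¹ * P s := by
  unfold P
  have h1 : δ * (1 / (1 + (δ * s) ^ 2)) = δ / (1 + (δ * s) ^ 2) := by ring
  have h2 : δ⁻¹ * (1 / (1 + s ^ 2)) = 1 / (δ * (1 + s ^ 2)) := by field_simp
  rw [h1, h2, div_le_div_iff₀ (by positivity) (by positivity)]
  have : δ ^ 2 ≤ 1 := by nlinarith
  nlinarith [sq_nonneg s, sq_nonneg (δ * s)]

lemma integral_P_scale {δ : ℝ} (hδ : 0 < δ) : ∫ s, δ * P (δ * s) = Real.pi := by
  rw [integral_const_mul, Measure.integral_comp_mul_left, integral_P,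
    abs_of_pos (by positivity : 0 < δ⁻¹), smul_eq_mul]
  field_simp

/-- The constant `C π`. -/
noncomputable def C1 (β : ℝ) : ℝ := (2 + 2 * (1 / (β - 1)) ^ 2) * Real.pi

lemma C1_pos (β : ℝ) : 0 < C1 β := by unfold C1; positivity

lemma P_translate_le {δ r : ℝ} (hδ : 0 < δ) (hδ1 : δ ≤ 1) (t : ℝ) {y : ℝ}
    (hy : y ∈ Icc 0 r) : P (δ * t) ≤ (2 + 2 * r ^ 2) * P (δ * (t + y)) := by
  unfold P
  rw [mul_one_div, div_le_div_iff₀ (by positivity) (by positivity), one_mul]
  have h1 : (δ * y) ^ 2 ≤ r ^ 2 := by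
    have h2 : δ * y ≤ r := by
      calc δ * y ≤ 1 * y := mul_le_mul_of_nonneg_right hδ1 hy.1
        _ = y := one_mul y
        _ ≤ r := hy.2
    exact pow_le_pow_left₀ (mul_nonneg hδ.le hy.1) h2 2
  have h3 : (δ * (t + y)) ^ 2 ≤ 2 * (δ * t) ^ 2 + 2 * (δ * y) ^ 2 := by
    nlinarith [sq_nonneg (δ * t - δ * y)]
  nlinarith [sq_nonneg (δ * t), mul_nonneg (sq_nonneg r) (sq_nonneg (δ * t))]

lemma P_A_le (hβ : 1 < β) (hh : IsDens β h) {x : ℝ} (hx : Leb β h x) {δ : ℝ} (hδ : 0 < δ)
    (hδ1 : δ ≤ 1) {ε : ℝ} (hε : 0 < ε) :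
    ∀ᶠ n in atTop, A β n (fun t => δ * P (δ * t)) x ≤ C1 β * h x + ε := by
  have hr : 0 ≤ 1 / (β - 1) := by
    have : 0 < β - 1 := by linarith
    positivity
  set C : ℝ := 2 + 2 * (1 / (β - 1)) ^ 2 with hC
  have hC0 : 0 < C := by positivity
  have hcont : Continuous fun s : ℝ => δ * P (δ * s) :=
    continuous_const.mul (continuous_P.comp (by fun_prop))
  have hlim := conv_tendsto hβ hh hx (ψ := fun s => ((δ * P (δ * s) : ℝ) : ℂ))
    (Complex.continuous_ofReal.comp hcont) (M := δ⁻¹) (fun s => by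
      rw [Complex.norm_real, Real.norm_eq_abs, abs_of_nonneg (mul_nonneg hδ.le (P_nonneg _))]
      exact P_scale_le hδ hδ1 s)
  have e1 : ∀ t : ℝ, ∫ y, ((δ * P (δ * (t + y)) : ℝ) : ℂ) * (h y : ℂ) =
      ((∫ y, δ * P (δ * (t + y)) * h y : ℝ) : ℂ) := by
    intro t
    rw [← integral_complex_ofReal]
    refine integral_congr_ae (Eventually.of_forall fun y => ?_)
    push_cast
    ring
  simp only [e1, A_ofReal] at hlim
  rw [integral_complex_ofReal, integral_P_scale hδ] at hlim
  have hlim2 : Tendsto (fun n => A β n (fun t => ∫ y, δ * P (δ * (t + y)) * h y) x) atTop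
      (𝓝 (h x * Real.pi)) := by
    have := (Complex.continuous_re.tendsto _).comp hlim
    simpa [Function.comp_def] using this
  have hlim3 := hlim2.const_mul C
  have hev : ∀ᶠ n in atTop, C * A β n (fun t => ∫ y, δ * P (δ * (t + y)) * h y) x <
      C1 β * h x + ε := by
    refine hlim3.eventually (gt_mem_nhds ?_)
    have : C * (h x * Real.pi) = C1 β * h x := by unfold C1; ring
    linarith
  filter_upwards [hev] with n hn
  refine le_trans ?_ hn.le
  rw [← A_mul]
  refine A_mono (by linarith) n (fun t => ?_) x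
  have e2 : δ * P (δ * t) = ∫ y, δ * P (δ * t) * h y := by
    rw [integral_const_mul, hh.one, mul_one]
  rw [e2, ← integral_const_mul]
  refine integral_mono_ae (hh.int.const_mul _) ?_ ?_
  · refine Integrable.const_mul ?_ _
    refine hh.int.bdd_mul (c := δ) ?_ (Eventually.of_forall fun y => ?_)
    · refine Continuous.aestronglyMeasurable ?_
      exact hcont.comp (by fun_prop : Continuous fun y : ℝ => t + y)
    · rw [Real.norm_eq_abs, abs_of_nonneg (mul_nonneg hδ.le (P_nonneg _))]
      exact mul_le_of_le_one_right hδ.le (P_le_one _)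
  · filter_upwards [hh.supp] with y hy
    by_cases hyr : y ∈ Icc 0 (1 / (β - 1))
    · have h1 := P_translate_le hδ hδ1 t hyr
      have h2 : δ * P (δ * t) ≤ C * (δ * P (δ * (t + y))) := by
        calc δ * P (δ * t) ≤ δ * (C * P (δ * (t + y))) := mul_le_mul_of_nonneg_left h1 hδ.le
          _ = _ := by ring
      calc δ * P (δ * t) * h y ≤ C * (δ * P (δ * (t + y))) * h y :=
            mul_le_mul_of_nonneg_right h2 (hh.nonneg y)
        _ = _ := by ring
    · rw [hy hyr]
      simp

end Helper64.BC
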