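import Pool.Agent.Helper64.BC.Prod

/-!
# Convergence of the functional on Fourier transforms
-/

open MeasureTheory Filter Topology Set Metric
open scoped ENNReal FourierTransform SchwartzMap ContDiff

namespace Helper64.BC

variable {β : ℝ} {h : ℝ → ℝ}

lemma Cc.continuous {G : ℝ → ℂ} (hG : Cc G) : Continuous G := hG.1.continuous

lemma Cc.integrable {G : ℝ → ℂ} (hG : Cc G) : Integrable G :=
  hG.1.continuous.integrable_of_hasCompactSupport hG.2

lemma Cc.mul {G V : ℝ → ℂ} (hG : Cc G) (hV : ContDiff ℝ ∞ V) : Cc fun ξ => G ξ * V ξ :=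
  ⟨hG.1.mul hV, hG.2.mul_right⟩

lemma fourier_add' {G G' : ℝ → ℂ} (hG : Integrable G) (hG' : Integrable G') (t : ℝ) :
    𝓕 (fun ξ => G ξ + G' ξ) t = 𝓕 G t + 𝓕 G' t := by
  rw [fourier_ex, fourier_ex, fourier_ex, ← integral_add (int_ex hG t) (int_ex hG' t)]
  refine integral_congr_ae (Eventually.of_forall fun ξ => ?_)
  simp only
  ring

/-- The bump function. -/
noncomputable def bump : ContDiffBump (0 : ℝ) := ⟨1 / 2, 1, by norm_num, by norm_num⟩

/-- The complex valued bump function. -/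
noncomputable def κ (η : ℝ) : ℂ := ((bump η : ℝ) : ℂ)

lemma κ_cc : Cc κ := by
  constructor
  · exact Complex.ofRealCLM.contDiff.comp bump.contDiff
  · exact bump.hasCompactSupport.comp_left (g := fun x : ℝ => (x : ℂ)) (by simp)

lemma κ_one {η : ℝ} (hη : |η| ≤ 1 / 2) : κ η = 1 := by
  unfold κ
  rw [bump.one_of_mem_closedBall]
  · simp
  · rw [mem_closedBall, dist_zero_right, Real.norm_eq_abs]
    exact hη

lemma κ_zero : κ 0 = 1 := κ_one (by simp)

lemma κ_eq_zero {η : ℝ} (hη : 1 ≤ |η|) : κ η = 0 := by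
  unfold κ
  rw [bump.zero_of_le_dist]
  · simp
  · rw [dist_zero_right, Real.norm_eq_abs]
    exact hη

lemma norm_one_sub_κ (η : ℝ) : ‖1 - κ η‖ ≤ 1 := by
  unfold κ
  have h1 : 0 ≤ bump η := bump.nonneg
  have h2 : bump η ≤ 1 := bump.le_one
  rw [← Complex.ofReal_one, ← Complex.ofReal_sub, Complex.norm_real, Real.norm_eq_abs, abs_le]
  constructor <;> linarith

/-- Asymptotic error. -/
def Err (β : ℝ) (h : ℝ → ℝ) (x : ℝ) (G : ℝ → ℂ) (B : ℝ) : Prop :=
  ∀ ε > 0, ∀ᶠ n in atTop, ‖A β n (𝓕 G) x - (h x : ℂ) * G 0‖ ≤ B + ε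

lemma Err.add {x : ℝ} {G G' : ℝ → ℂ} {B B' : ℝ} (h1 : Err β h x G B) (h2 : Err β h x G' B')
    (hG : Integrable G) (hG' : Integrable G') :
    Err β h x (fun ξ => G ξ + G' ξ) (B + B') := by
  intro ε hε
  filter_upwards [h1 (ε / 2) (by positivity), h2 (ε / 2) (by positivity)] with n a1 a2
  have e1 : A β n (𝓕 fun ξ => G ξ + G' ξ) x = A β n (𝓕 G) x + A β n (𝓕 G') x := by
    rw [← A_add]
    exact A_congr β n (fourier_add' hG hG') x
  rw [e1]
  have e2 : A β n (𝓕 G) x + A β n (𝓕 G') x - (h x : ℂ) * (G 0 + G' 0) =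
      (A β n (𝓕 G) x - (h x : ℂ) * G 0) + (A β n (𝓕 G') x - (h x : ℂ) * G' 0) := by ring
  rw [e2]
  refine (norm_add_le _ _).trans ?_
  linarith

/-- The case in which `H` has no zeros on the support. -/
lemma err_div (hβ : 1 < β) (hh : IsDens β h) {x : ℝ} (hx : Leb β h x) {G : ℝ → ℂ} (hG : Cc G)
    (hz : ∀ ξ ∈ tsupport G, H h ξ ≠ 0) :
    Tendsto (fun n => A β n (𝓕 G) x) atTop (𝓝 ((h x : ℂ) * G 0)) := by
  set Ψ : ℝ → ℂ := fun ξ => G ξ / H h ξ with hΨ
  have hΨc : Cc Ψ := by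
    constructor
    · rw [contDiff_iff_contDiffAt]
      intro ξ
      by_cases hξ : ξ ∈ tsupport G
      · simp only [hΨ, div_eq_mul_inv]
        exact hG.1.contDiffAt.mul ((contDiff_H hβ hh).contDiffAt.inv (hz ξ hξ))
      · have h1 : G =ᶠ[𝓝 ξ] 0 := notMem_tsupport_iff_eventuallyEq.mp hξ
        have h2 : Ψ =ᶠ[𝓝 ξ] fun _ => 0 := by
          filter_upwards [h1] with η hη
          simp only [hΨ]
          rw [hη]
          simp
        exact contDiffAt_const.congr_of_eventuallyEq h2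
    · refine hG.2.mono ?_
      intro ξ hξ h0
      apply hξ
      simp only [hΨ]
      rw [h0, zero_div]
  have hGe : ∀ ξ, G ξ = Ψ ξ * H h ξ := by
    intro ξ
    by_cases hξ : H h ξ = 0
    · have : G ξ = 0 := by
        by_contra hne
        exact hz ξ (subset_tsupport _ hne) hξ
      rw [hξ, mul_zero, this]
    · simp only [hΨ]
      rw [div_mul_cancel₀ _ hξ]
  obtain ⟨M, hM⟩ := decayC hΨc
  have hcΨ : Continuous (𝓕 Ψ) := continuous_fourier_of_integrable hΨc.integrable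
  have key := conv_tendsto hβ hh hx hcΨ hM
  have hFi : Integrable (𝓕 Ψ) :=
    (integrable_P.const_mul M).mono' hcΨ.aestronglyMeasurable (Eventually.of_forall hM)
  have hinv : ∫ s, 𝓕 Ψ s = Ψ 0 := by
    have h1 := hΨc.continuous.fourierInv_fourier_eq hΨc.integrable hFi
    have h2 := congrFun h1 0
    rw [Real.fourierInv_eq] at h2
    simpa using h2
  have hΨ0 : Ψ 0 = G 0 := by
    have := hGe 0
    rw [H_zero hh, mul_one] at this
    exact this.symm
  rw [hinv, hΨ0] at key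
  refine key.congr fun n => ?_
  refine A_congr β n (fun t => ?_) x
  have h3 := fourier_mul_H hh.intC hΨc.integrable t
  rw [← h3]
  have : G = fun ξ => Ψ ξ * H h ξ := funext hGe
  rw [this]
  rfl

/-- The contribution of a small neighbourhood of `t ≠ 0`. -/
lemma err_local (hβ : 1 < β) (hh : IsDens β h) {x : ℝ} (hx : Leb β h x) {M : ℝ}
    (hM : ∀ s, ‖𝓕 κ s‖ ≤ M * P s) {G : ℝ → ℂ} (hG : Cc G) (t : ℝ) :
    ∃ C, 0 ≤ C ∧ ∀ δ, 0 < δ → δ ≤ 1 → δ ≤ |t| →
      Err β h x (fun ξ => G ξ * κ ((ξ - t) / δ)) ((δ * C + ‖G t‖ * M) * (C1 β * h x)) := by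
  have hM0 : 0 ≤ M := nonneg_of_mul_nonneg_left ((norm_nonneg _).trans (hM 0)) (P_pos 0)
  obtain ⟨C, hC, hsm⟩ := fourier_small (κ_cc.2.toSchwartzMap κ_cc.1) hG t
  refine ⟨C, hC, fun δ hδ hδ1 hδt ε hε => ?_⟩
  set D : ℝ := δ * C + ‖G t‖ * M with hD
  have hD0 : 0 ≤ D := by positivity
  -- the value at zero vanishes
  have h0 : κ ((0 - t) / δ) = 0 := by
    apply κ_eq_zero
    rw [zero_sub, abs_div, abs_neg, abs_of_pos hδ, le_div_iff₀ hδ, one_mul]
    exact hδt
  simp only [h0, mul_zero, sub_zero]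
  set K : ℝ → ℂ := fun η => κ η * (G (t + δ * η) - G t) + G t * κ η with hK
  have hKe : (fun ξ => G ξ * κ ((ξ - t) / δ)) = fun ξ => K ((ξ - t) / δ) := by
    funext ξ
    simp only [hK]
    have : t + δ * ((ξ - t) / δ) = ξ := by field_simp; ring
    rw [this]
    ring
  have hVd : ContDiff ℝ ∞ fun η : ℝ => G (t + δ * η) - G t :=
    (hG.1.comp (contDiff_const.add (contDiff_const.mul contDiff_id))).sub contDiff_const
  have i1 : Integrable fun η => κ η * (G (t + δ * η) - G t) := (κ_cc.mul hVd).integrable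
  have i2 : Integrable fun η => G t * κ η := κ_cc.integrable.const_mul _
  have hKb : ∀ s, ‖𝓕 K s‖ ≤ D * P s := by
    intro s
    rw [hK, fourier_add' i1 i2 s]
    refine (norm_add_le _ _).trans ?_
    have b1 : ‖𝓕 (fun η => κ η * (G (t + δ * η) - G t)) s‖ ≤ δ * C * P s := hsm δ hδ hδ1 s
    have b2 : ‖𝓕 (fun η => G t * κ η) s‖ ≤ ‖G t‖ * (M * P s) := by
      have : 𝓕 (fun η => G t * κ η) s = G t * 𝓕 κ s := by
        rw [fourier_ex, fourier_ex, ← integral_const_mul]
        refine integral_congr_ae (Eventually.of_forall fun η => ?_)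
        simp only
        ring
      rw [this, norm_mul]
      exact mul_le_mul_of_nonneg_left (hM s) (norm_nonneg _)
    calc _ ≤ δ * C * P s + ‖G t‖ * (M * P s) := add_le_add b1 b2
      _ = D * P s := by rw [hD]; ring
  have hFb : ∀ s, ‖𝓕 (fun ξ => G ξ * κ ((ξ - t) / δ)) s‖ ≤ D * (δ * P (δ * s)) := by
    intro s
    rw [hKe, norm_fourier_scale K t hδ s]
    calc δ * ‖𝓕 K (δ * s)‖ ≤ δ * (D * P (δ * s)) := mul_le_mul_of_nonneg_left (hKb _) hδ.le
      _ = _ := by ring
  filter_upwards [P_A_le hβ hh hx hδ hδ1 (ε := ε / (D + 1)) (by positivity)] with n hn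
  refine (A_norm_le (by linarith) n hFb x).trans ?_
  rw [A_mul]
  calc D * A β n (fun t => δ * P (δ * t)) x ≤ D * (C1 β * h x + ε / (D + 1)) :=
        mul_le_mul_of_nonneg_left hn hD0
    _ = D * (C1 β * h x) + D / (D + 1) * ε := by ring
    _ ≤ D * (C1 β * h x) + 1 * ε := by
        gcongr
        rw [div_le_one (by positivity)]
        linarith
    _ = _ := by ring

/-- Removing the zeros one by one. -/
lemma err_zeros (hβ : 1 < β) (hh : IsDens β h) {x : ℝ} (hx : Leb β h x) {M : ℝ}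
    (hM : ∀ s, ‖𝓕 κ s‖ ≤ M * P s) (S : Finset ℝ) : ∀ {G : ℝ → ℂ}, Cc G → (0 : ℝ) ∉ S →
    (∀ ξ ∈ tsupport G, H h ξ = 0 → ξ ∈ S) →
    Err β h x G ((∑ t ∈ S, ‖G t‖) * (M * (C1 β * h x))) := by
  have hM0 : 0 ≤ M := nonneg_of_mul_nonneg_left ((norm_nonneg _).trans (hM 0)) (P_pos 0)
  have hch : 0 ≤ C1 β * h x := mul_nonneg (C1_pos β).le (hh.nonneg x)
  induction S using Finset.induction_on with
  | empty =>
    intro G hG _ hz ε hε
    have h1 := err_div hβ hh hx hG (fun ξ hξ h0 => by simpa using hz ξ hξ h0)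
    rw [tendsto_iff_norm_sub_tendsto_zero] at h1
    filter_upwards [h1.eventually (gt_mem_nhds hε)] with n hn
    rw [Finset.sum_empty, zero_mul, zero_add]
    exact hn.le
  | insert t S htS ih =>
    intro G hG h0S hz ε hε
    have ht0 : t ≠ 0 := by
      rintro rfl
      exact h0S (Finset.mem_insert_self _ _)
    have h0S' : (0 : ℝ) ∉ S := fun h1 => h0S (Finset.mem_insert_of_mem h1)
    obtain ⟨C, hC, hloc⟩ := err_local hβ hh hx hM hG t
    obtain ⟨δ, hδ, hδ1, hδt, hδC⟩ : ∃ δ : ℝ, 0 < δ ∧ δ ≤ 1 ∧ δ ≤ |t| ∧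
        δ * C * (C1 β * h x) ≤ ε / 3 := by
      set Q := C * (C1 β * h x) with hQ
      have hQ0 : 0 ≤ Q := mul_nonneg hC hch
      refine ⟨min (min 1 |t|) (ε / 3 / (Q + 1)), ?_, ?_, ?_, ?_⟩
      · have := abs_pos.mpr ht0
        positivity
      · exact (min_le_left _ _).trans (min_le_left _ _)
      · exact (min_le_left _ _).trans (min_le_right _ _)
      · calc min (min 1 |t|) (ε / 3 / (Q + 1)) * C * (C1 β * h x)
            = min (min 1 |t|) (ε / 3 / (Q + 1)) * Q := by rw [hQ]; ring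
          _ ≤ (ε / 3 / (Q + 1)) * Q := mul_le_mul_of_nonneg_right (min_le_right _ _) hQ0
          _ = (Q / (Q + 1)) * (ε / 3) := by ring
          _ ≤ 1 * (ε / 3) := by
            gcongr
            rw [div_le_one (by positivity)]
            linarith
          _ = ε / 3 := one_mul _
    have hκd : ContDiff ℝ ∞ fun ξ : ℝ => κ ((ξ - t) / δ) :=
      κ_cc.1.comp ((contDiff_id.sub contDiff_const).div_const _)
    set G1 : ℝ → ℂ := fun ξ => G ξ * (1 - κ ((ξ - t) / δ)) with hG1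
    have hG1c : Cc G1 := hG.mul (contDiff_const.sub hκd)
    have hz1 : ∀ ξ ∈ tsupport G1, H h ξ = 0 → ξ ∈ S := by
      intro ξ hξ hξ0
      have h1 : ξ ∈ tsupport G := by
        refine closure_mono ?_ hξ
        intro η hη hη0
        apply hη
        simp only [hG1]
        rw [hη0, zero_mul]
      rcases Finset.mem_insert.mp (hz ξ h1 hξ0) with h2 | h2
      · exfalso
        rw [h2] at hξ
        refine (notMem_tsupport_iff_eventuallyEq.mpr ?_) hξ
        have h3 : ∀ᶠ η in 𝓝 t, |η - t| < δ / 2 := by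
          have := Metric.ball_mem_nhds t (by positivity : 0 < δ / 2)
          filter_upwards [this] with η hη
          rwa [Metric.mem_ball, Real.dist_eq] at hη
        filter_upwards [h3] with η hη
        simp only [hG1, Pi.zero_apply]
        rw [κ_one, sub_self, mul_zero]
        rw [abs_div, abs_of_pos hδ, div_le_iff₀ hδ]
        linarith
      · exact h2
    have hE1 := ih hG1c h0S' hz1
    have hE2 := hloc δ hδ hδ1 hδt
    have hE := hE1.add hE2 hG1c.integrable (hG.mul hκd).integrable (ε / 3) (by positivity)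
    have e1 : (fun ξ => G1 ξ + G ξ * κ ((ξ - t) / δ)) = G := by
      funext ξ
      simp only [hG1]
      ring
    rw [e1] at hE
    filter_upwards [hE] with n hn
    have e2 : G1 0 + G 0 * κ ((0 - t) / δ) = G 0 := congrFun e1 0
    refine hn.trans ?_
    have h4 : ∑ t' ∈ S, ‖G1 t'‖ ≤ ∑ t' ∈ S, ‖G t'‖ := by
      refine Finset.sum_le_sum fun t' _ => ?_
      simp only [hG1]
      rw [norm_mul]
      exact mul_le_of_le_one_right (norm_nonneg _) (norm_one_sub_κ _)
    rw [Finset.sum_insert htS]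
    have h5 : (∑ t' ∈ S, ‖G1 t'‖) * (M * (C1 β * h x)) ≤
        (∑ t' ∈ S, ‖G t'‖) * (M * (C1 β * h x)) :=
      mul_le_mul_of_nonneg_right h4 (mul_nonneg hM0 hch)
    have h6 : (δ * C + ‖G t‖ * M) * (C1 β * h x) =
        δ * C * (C1 β * h x) + ‖G t‖ * (M * (C1 β * h x)) := by ring
    rw [h6, add_mul]
    linarith

end Helper64.BC
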