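import Pool.Agent.Helper64.BC.Zeros

/-!
# The products `q_m(u) = ∏_{j<m} |cos(π β^j u)|` tend to zero at the zeros of `H`
-/

open MeasureTheory Filter Topology Set Metric
open scoped ENNReal FourierTransform SchwartzMap ContDiff

namespace Helper64.BC

variable {β : ℝ} {h : ℝ → ℝ}

/-- the product -/
noncomputable def q (β : ℝ) (m : ℕ) (u : ℝ) : ℝ := ∏ j ∈ Finset.range m, ‖c (β ^ j * u)‖

lemma q_zero (β u : ℝ) : q β 0 u = 1 := by simp [q]

lemma q_succ (β : ℝ) (m : ℕ) (u : ℝ) : q β (m + 1) u = q β m u * ‖c (β ^ m * u)‖ :=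
  Finset.prod_range_succ _ _

lemma q_nonneg (β : ℝ) (m : ℕ) (u : ℝ) : 0 ≤ q β m u :=
  Finset.prod_nonneg fun _ _ => norm_nonneg _

lemma q_antitone (β u : ℝ) : Antitone fun m => q β m u := by
  refine antitone_nat_of_succ_le fun m => ?_
  rw [q_succ]
  exact mul_le_of_le_one_right (q_nonneg _ _ _) (norm_c_le _)

lemma q_le_one (β : ℝ) (m : ℕ) (u : ℝ) : q β m u ≤ 1 := by
  rw [← q_zero β u]
  exact q_antitone β u (Nat.zero_le m)

lemma H_pow (hβ : 1 < β) (hh : IsDens β h) (m : ℕ) (ξ : ℝ) :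
    ‖H h (β ^ m * ξ)‖ = ‖H h ξ‖ * q β m ξ := by
  induction m with
  | zero => rw [pow_zero, one_mul, q_zero, mul_one]
  | succ m ih =>
    have : β ^ (m + 1) * ξ = β * (β ^ m * ξ) := by ring
    rw [this, H_mul hβ hh, norm_mul, ih, q_succ, mul_assoc]

lemma c_double {v : ℝ} (hv : 0.62 ≤ ‖c v‖ ^ 2) : ‖c v‖ ^ 6 ≤ ‖c (2 * v)‖ := by
  have h1 : ‖c (2 * v)‖ = |2 * ‖c v‖ ^ 2 - 1| := by
    rw [norm_c, norm_c, sq_abs]
    have : Real.pi * (2 * v) = 2 * (Real.pi * v) := by ring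
    rw [this, Real.cos_two_mul]
  rw [h1]
  have h2 : ‖c v‖ ^ 2 ≤ 1 := by
    have := norm_c_le v
    have := norm_nonneg (c v)
    nlinarith
  set y := ‖c v‖ ^ 2 with hy
  have h3 : ‖c v‖ ^ 6 = y ^ 3 := by rw [hy, ← pow_mul]
  rw [h3]
  refine le_trans ?_ (le_abs_self _)
  nlinarith [mul_nonneg (by linarith : 0 ≤ 1 - y) (by nlinarith : 0 ≤ y ^ 2 + y - 1)]

lemma round_bound (v : ℝ) : 4 * (v - round v) ^ 2 ≤ 1 - ‖c v‖ ^ 2 := by
  have h1 : |v - round v| ≤ 1 / 2 := abs_sub_round v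
  have hpi := Real.pi_pos
  have h2 : 2 / Real.pi * |Real.pi * (v - round v)| ≤ |Real.sin (Real.pi * (v - round v))| := by
    apply Real.mul_abs_le_abs_sin
    rw [abs_mul, abs_of_pos hpi]
    nlinarith
  rw [abs_mul, abs_of_pos hpi] at h2
  have h3 : 2 / Real.pi * (Real.pi * |v - round v|) = 2 * |v - round v| := by field_simp
  rw [h3] at h2
  have h4 : Real.sin (Real.pi * (v - round v)) ^ 2 = Real.sin (Real.pi * v) ^ 2 := by
    have : Real.pi * (v - round v) = Real.pi * v - (round v : ℤ) * Real.pi := by ring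
    rw [this, Real.sin_sub_int_mul_pi, mul_pow, ← zpow_natCast, ← zpow_mul, mul_comm (round v),
      zpow_mul]
    norm_num
  have h5 : (2 * |v - round v|) ^ 2 ≤ Real.sin (Real.pi * v) ^ 2 := by
    rw [← h4, ← sq_abs (Real.sin _)]
    exact pow_le_pow_left₀ (by positivity) h2 2
  rw [norm_c, sq_abs]
  have h6 := Real.sin_sq_add_cos_sq (Real.pi * v)
  rw [mul_pow, sq_abs] at h5
  linarith

lemma rat_int {x : ℚ} {N : ℤ} (hN : N ≠ 0) (hx : ∀ m : ℕ, ∃ z : ℤ, x ^ m * N = z) :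
    x.den = 1 := by
  by_contra hd
  have hd0 : x.den ≠ 0 := x.den_nz
  have hd2 : 2 ≤ x.den := by omega
  obtain ⟨z, hz⟩ := hx N.natAbs
  set m := N.natAbs with hm
  have h1 : x.num ^ m * N = z * (x.den : ℤ) ^ m := by
    have h2 : ((x.num : ℚ) / (x.den : ℚ)) ^ m * N = z := by
      rw [Rat.num_div_den]
      exact hz
    have h3 : (x.den : ℚ) ≠ 0 := by exact_mod_cast hd0
    rw [div_pow, div_mul_eq_mul_div, div_eq_iff (pow_ne_zero _ h3)] at h2
    exact_mod_cast h2
  have h4 : (x.den : ℤ) ^ m ∣ x.num ^ m * N := ⟨z, by rw [h1]; ring⟩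
  have hcop : IsCoprime ((x.den : ℤ) ^ m) (x.num ^ m) := by
    refine IsCoprime.pow ?_
    rw [Int.isCoprime_iff_gcd_eq_one]
    have := x.reduced
    rw [Int.gcd_comm]
    simpa [Int.gcd] using this
  have h5 : (x.den : ℤ) ^ m ∣ N := hcop.dvd_of_dvd_mul_left h4
  have h6 : x.den ^ m ∣ N.natAbs := by
    have := Int.natAbs_dvd_natAbs.mpr h5
    simpa [Int.natAbs_pow] using this
  have h7 : x.den ^ m ≤ N.natAbs := Nat.le_of_dvd (Int.natAbs_pos.mpr hN) h6
  have h8 : 2 ^ m ≤ x.den ^ m := Nat.pow_le_pow_left hd2 m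
  have h9 : m < 2 ^ m := Nat.lt_two_pow_self
  omega

/-- If some power `β^k` is rational then no orbit `β^j u` (with `u ≠ 0`) tends to the integers. -/
lemma rational_case (hβ : 1 < β) (hβ2 : β < 2) {u : ℝ} (hu : u ≠ 0)
    (he : Tendsto (fun j : ℕ => β ^ j * u - round (β ^ j * u)) atTop (𝓝 0)) {k : ℕ} (hk : 1 ≤ k)
    (r : ℚ) (hr : (r : ℝ) = β ^ k) : False := by
  have hβ0 : 0 < β := by linarith
  set e : ℕ → ℝ := fun j => β ^ j * u - round (β ^ j * u) with hedef
  have hden : (r.den : ℝ) ≠ 0 := by exact_mod_cast r.den_nz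
  have hr' : (r.den : ℝ) * β ^ k = r.num := by
    rw [← hr]
    have := Rat.den_mul_eq_num r
    exact_mod_cast this
  have hlim : Tendsto (fun j => (r.num : ℝ) * e j - r.den * e (j + k)) atTop (𝓝 0) := by
    have h1 := he.const_mul (r.num : ℝ)
    have h2 := (he.comp (tendsto_add_atTop_nat k)).const_mul (r.den : ℝ)
    simpa using h1.sub h2
  have hev : ∀ᶠ j in atTop, |(r.num : ℝ) * e j - r.den * e (j + k)| < 1 := by
    have := hlim.eventually (Metric.ball_mem_nhds 0 one_pos)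
    filter_upwards [this] with j hj
    rwa [dist_zero_right, Real.norm_eq_abs] at hj
  obtain ⟨j0, hj0⟩ := eventually_atTop.mp hev
  have hstep : ∀ j, j0 ≤ j → e (j + k) = β ^ k * e j := by
    intro j hj
    have h1 := hj0 j hj
    have h2 : (r.num : ℝ) * e j - r.den * e (j + k) =
        (((r.den : ℤ) * round (β ^ (j + k) * u) - r.num * round (β ^ j * u) : ℤ) : ℝ) := by
      simp only [hedef]
      push_cast
      rw [pow_add, ← hr']
      ring
    rw [h2, ← Int.cast_abs, ← Int.cast_one, Int.cast_lt, Int.abs_lt_one_iff] at h1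
    rw [h1, Int.cast_zero, ← hr'] at h2
    have h3 : (r.den : ℝ) * (β ^ k * e j - e (j + k)) = 0 := by rw [← h2]; ring
    rcases mul_eq_zero.mp h3 with h4 | h4
    · exact absurd h4 hden
    · linarith
  have hzero : ∀ j, j0 ≤ j → e j = 0 := by
    intro j hj
    by_contra hne
    have h1 : ∀ m : ℕ, e (j + m * k) = (β ^ k) ^ m * e j := by
      intro m
      induction m with
      | zero => simp
      | succ m ih =>
        have : j + (m + 1) * k = j + m * k + k := by ring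
        rw [this, hstep _ (by omega), ih]
        ring
    have h2 : 1 < β ^ k := one_lt_pow₀ hβ (by omega)
    obtain ⟨m, hm⟩ := pow_unbounded_of_one_lt (1 / |e j|) h2
    have h3 : |e (j + m * k)| ≤ 1 / 2 := abs_sub_round _
    rw [h1 m, abs_mul, abs_of_pos (by positivity)] at h3
    rw [div_lt_iff₀ (abs_pos.mpr hne)] at hm
    linarith
  have hint : ∀ j, j0 ≤ j → β ^ j * u = round (β ^ j * u) := by
    intro j hj
    have := hzero j hj
    simp only [hedef] at this
    linarith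
  set N : ℤ := round (β ^ j0 * u) with hN
  have hN0 : N ≠ 0 := by
    intro h0
    have h1 := hint j0 le_rfl
    rw [← hN, h0, Int.cast_zero] at h1
    rcases mul_eq_zero.mp h1 with h2 | h2
    · exact absurd h2 (by positivity)
    · exact hu h2
  have hN0' : (N : ℝ) ≠ 0 := by exact_mod_cast hN0
  have hpow : ∀ m : ℕ, β ^ m * N = (round (β ^ (j0 + m) * u) : ℤ) := by
    intro m
    rw [← hint (j0 + m) (by omega), hN, ← hint j0 le_rfl]
    ring
  set x : ℚ := (round (β ^ (j0 + 1) * u) : ℤ) / (N : ℚ) with hx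
  have hxβ : (x : ℝ) = β := by
    rw [hx]
    push_cast
    have := hpow 1
    rw [pow_one] at this
    rw [← this]
    field_simp
  have hden1 : x.den = 1 := by
    refine rat_int hN0 fun m => ⟨round (β ^ (j0 + m) * u), ?_⟩
    have h1 := hpow m
    rw [← hxβ] at h1
    rw [hxβ] at h1
    have h2 : ((x ^ m * N : ℚ) : ℝ) = ((round (β ^ (j0 + m) * u) : ℤ) : ℝ) := by
      push_cast
      rw [hxβ]
      exact h1
    exact_mod_cast h2
  have hxn : (x.num : ℝ) = β := by
    rw [← hxβ]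
    have := (Rat.den_eq_one_iff x).mp hden1
    exact_mod_cast this
  have h1 : (1 : ℝ) < (x.num : ℝ) := by rw [hxn]; exact hβ
  have h2 : (x.num : ℝ) < 2 := by rw [hxn]; exact hβ2
  have h3 : (1 : ℤ) < x.num := by exact_mod_cast h1
  have h4 : x.num < (2 : ℤ) := by exact_mod_cast h2
  omega

/-- If no power `β^k`, `k ≥ 1`, is rational, then the orbit of a zero of `H` does not tend to the
integers fast enough. -/
lemma irrational_case (hβ : 1 < β) (hh : IsDens β h) {u : ℝ} (hu : H h u = 0)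
    (hirr : ∀ k : ℕ, 1 ≤ k → ∀ r : ℚ, (r : ℝ) ≠ β ^ k) {L : ℝ} (hL : 0 < L)
    (hq : ∀ m, L ≤ q β m u) (hc : Tendsto (fun j : ℕ => ‖c (β ^ j * u)‖ ^ 2) atTop (𝓝 1)) :
    False := by
  have hβ0 : 0 < β := by linarith
  obtain ⟨i, hi, l, hl⟩ := exists_factor hβ hh hu
  have hβi : β ^ i ≠ 0 := by positivity
  have hul : u = β ^ i * (l + 1 / 2) := by
    rw [← hl]
    field_simp
  set w : ℝ := ((2 * l + 1 : ℤ) : ℝ) with hw
  have hw0 : w ≠ 0 := by
    have : (2 * l + 1 : ℤ) ≠ 0 := by omega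
    rw [hw]
    exact_mod_cast this
  have hwu : ∀ j : ℕ, β ^ (i + j) * w = 2 * (β ^ j * u) := by
    intro j
    rw [hw, hul, pow_add]
    push_cast
    ring
  have hHw : H h w ≠ 0 := by
    intro h0
    obtain ⟨i', hi', m, hm⟩ := exists_factor hβ hh h0
    have hβi' : β ^ i' ≠ 0 := by positivity
    have hm0 : (m : ℝ) + 1 / 2 ≠ 0 := by
      intro h1
      rw [h1] at hm
      rcases div_eq_zero_iff.mp hm with h2 | h2
      · exact hw0 h2
      · exact hβi' h2
    refine hirr i' hi' (((2 * l + 1 : ℤ) : ℚ) / ((m : ℚ) + 1 / 2)) ?_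
    push_cast
    rw [div_eq_iff hm0]
    rw [div_eq_iff hβi'] at hm
    rw [hw] at hm
    push_cast at hm
    rw [hm]
    ring
  have hcw : ∀ j : ℕ, c (β ^ j * w) ≠ 0 := by
    intro j h0
    obtain ⟨m, hm⟩ := c_eq_zero h0
    rcases Nat.eq_zero_or_pos j with hj | hj
    · rw [hj, pow_zero, one_mul, hw] at hm
      have h2 : ((2 * (2 * l + 1) : ℤ) : ℝ) = ((2 * m + 1 : ℤ) : ℝ) := by
        push_cast at hm ⊢
        rw [hm]
        ring
      have h3 : 2 * (2 * l + 1) = 2 * m + 1 := by exact_mod_cast h2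
      omega
    · refine hirr j hj (((m : ℚ) + 1 / 2) / ((2 * l + 1 : ℤ) : ℚ)) ?_
      rw [hw] at hm hw0
      push_cast at hm hw0 ⊢
      rw [← hm]
      field_simp
  have hqw : ∀ m, 0 < q β m w := fun m => Finset.prod_pos fun j _ => norm_pos_iff.mpr (hcw j)
  have hev : ∀ᶠ j : ℕ in atTop, 0.62 < ‖c (β ^ j * u)‖ ^ 2 :=
    hc.eventually (lt_mem_nhds (by norm_num))
  obtain ⟨a, ha⟩ := eventually_atTop.mp hev
  have key : ∀ k : ℕ, q β (i + a) w * q β (a + k) u ^ 6 ≤ q β (i + a + k) w * q β a u ^ 6 := by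
    intro k
    induction k with
    | zero => simp
    | succ k ih =>
      have e1 : i + a + (k + 1) = (i + a + k) + 1 := by ring
      have e2 : a + (k + 1) = (a + k) + 1 := by ring
      rw [e1, e2, q_succ, q_succ, mul_pow]
      have h1 : ‖c (β ^ (a + k) * u)‖ ^ 6 ≤ ‖c (β ^ (i + a + k) * w)‖ := by
        rw [add_assoc, hwu]
        exact c_double (ha _ (by omega)).le
      calc q β (i + a) w * (q β (a + k) u ^ 6 * ‖c (β ^ (a + k) * u)‖ ^ 6)
          = (q β (i + a) w * q β (a + k) u ^ 6) * ‖c (β ^ (a + k) * u)‖ ^ 6 := by ring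
        _ ≤ (q β (i + a + k) w * q β a u ^ 6) * ‖c (β ^ (i + a + k) * w)‖ :=
            mul_le_mul ih h1 (by positivity) (mul_nonneg (q_nonneg _ _ _)
              (pow_nonneg (q_nonneg _ _ _) _))
        _ = _ := by ring
  have hlow : ∀ k : ℕ, q β (i + a) w * L ^ 6 ≤ q β (i + a + k) w := by
    intro k
    calc q β (i + a) w * L ^ 6 ≤ q β (i + a) w * q β (a + k) u ^ 6 :=
          mul_le_mul_of_nonneg_left (pow_le_pow_left₀ hL.le (hq _) 6) (q_nonneg _ _ _)
      _ ≤ q β (i + a + k) w * q β a u ^ 6 := key k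
      _ ≤ q β (i + a + k) w * 1 := mul_le_mul_of_nonneg_left
          (pow_le_one₀ (q_nonneg _ _ _) (q_le_one _ _ _)) (q_nonneg _ _ _)
      _ = _ := mul_one _
  -- Riemann-Lebesgue
  have hRL : Tendsto (fun m : ℕ => ‖H h (β ^ m * w)‖) atTop (𝓝 0) := by
    have h1 : Tendsto (H h) (cocompact ℝ) (𝓝 0) := Real.zero_at_infty_fourier _
    have h2 : Tendsto (fun m : ℕ => β ^ m * w) atTop (cocompact ℝ) := by
      rw [← Metric.cobounded_eq_cocompact, ← tendsto_norm_atTop_iff_cobounded]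
      have h3 : Tendsto (fun m : ℕ => β ^ m * |w|) atTop atTop :=
        (tendsto_pow_atTop_atTop_of_one_lt hβ).atTop_mul_const (abs_pos.mpr hw0)
      refine h3.congr fun m => ?_
      rw [norm_mul, Real.norm_eq_abs, Real.norm_eq_abs, abs_of_pos (by positivity : 0 < β ^ m)]
    have h4 := (h1.comp h2).norm
    simpa using h4
  have hpos : 0 < ‖H h w‖ * (q β (i + a) w * L ^ 6) :=
    mul_pos (norm_pos_iff.mpr hHw) (mul_pos (hqw _) (by positivity))
  have hev2 : ∀ᶠ m : ℕ in atTop, ‖H h (β ^ m * w)‖ < ‖H h w‖ * (q β (i + a) w * L ^ 6) :=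
    hRL.eventually (gt_mem_nhds hpos)
  obtain ⟨m0, hm0⟩ := eventually_atTop.mp hev2
  have h5 := hm0 (i + a + m0) (by omega)
  rw [H_pow hβ hh] at h5
  have h6 := mul_le_mul_of_nonneg_left (hlow m0) (norm_nonneg (H h w))
  linarith

/-- The product lemma. -/
lemma q_tendsto (hβ : 1 < β) (hβ2 : β < 2) (hh : IsDens β h) {u : ℝ} (hu : H h u = 0) :
    Tendsto (fun m => q β m u) atTop (𝓝 0) := by
  have hlim := tendsto_atTop_ciInf (q_antitone β u)
    ⟨0, by rintro _ ⟨m, rfl⟩; exact q_nonneg β m u⟩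
  set L := ⨅ m, q β m u with hLdef
  have hL0 : 0 ≤ L := le_ciInf fun m => q_nonneg β m u
  rcases hL0.eq_or_lt with h0 | hL
  · rwa [← h0] at hlim
  · exfalso
    have hq : ∀ m, L ≤ q β m u := fun m =>
      ciInf_le ⟨0, by rintro _ ⟨m, rfl⟩; exact q_nonneg β m u⟩ m
    have hu0 : u ≠ 0 := by
      rintro rfl
      rw [H_zero hh] at hu
      exact one_ne_zero hu
    have hc1 : Tendsto (fun j : ℕ => ‖c (β ^ j * u)‖) atTop (𝓝 1) := by
      have h1 : Tendsto (fun j => q β (j + 1) u / q β j u) atTop (𝓝 (L / L)) :=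
        (hlim.comp (tendsto_add_atTop_nat 1)).div hlim hL.ne'
      rw [div_self hL.ne'] at h1
      refine h1.congr fun j => ?_
      have h2 : q β j u ≠ 0 := (hL.trans_le (hq j)).ne'
      rw [q_succ, mul_div_cancel_left₀ _ h2]
    have hc2 : Tendsto (fun j : ℕ => ‖c (β ^ j * u)‖ ^ 2) atTop (𝓝 1) := by
      simpa using hc1.pow 2
    have he : Tendsto (fun j : ℕ => β ^ j * u - round (β ^ j * u)) atTop (𝓝 0) := by
      have h1 : Tendsto (fun j : ℕ => (β ^ j * u - round (β ^ j * u)) ^ 2) atTop (𝓝 0) := by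
        have h2 : Tendsto (fun j : ℕ => (1 - ‖c (β ^ j * u)‖ ^ 2) / 4) atTop (𝓝 0) := by
          simpa using (hc2.const_sub 1).div_const 4
        refine tendsto_of_tendsto_of_tendsto_of_le_of_le tendsto_const_nhds h2
          (fun j => sq_nonneg _) (fun j => ?_)
        have := round_bound (β ^ j * u)
        simp only
        linarith
      have h3 := h1.sqrt
      rw [Real.sqrt_zero] at h3
      simp only [Real.sqrt_sq_eq_abs] at h3
      exact (tendsto_zero_iff_abs_tendsto_zero _).mpr h3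
    by_cases hrat : ∃ k : ℕ, 1 ≤ k ∧ ∃ r : ℚ, (r : ℝ) = β ^ k
    · obtain ⟨k, hk, r, hr⟩ := hrat
      exact rational_case hβ hβ2 hu0 he hk r hr
    · push Not at hrat
      exact irrational_case hβ hh hu (fun k hk r => hrat k hk r) hL hq hc2

end Helper64.BC
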