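import Pool.Agent.Helper64.BC.Four

/-!
# The Fourier transform of the density and its zeros
-/

open MeasureTheory Filter Topology Set Metric
open scoped ENNReal FourierTransform SchwartzMap ContDiff

namespace Helper64.BC

variable {β : ℝ} {h : ℝ → ℝ}

/-- The Fourier transform of the density. -/
noncomputable def H (h : ℝ → ℝ) : ℝ → ℂ := 𝓕 (fun y => (h y : ℂ))

/-- `e(x) = exp(2πix)`. -/
noncomputable def ex (x : ℝ) : ℂ := Complex.exp (((2 * Real.pi * x : ℝ) : ℂ) * Complex.I)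

lemma ex_add (x y : ℝ) : ex (x + y) = ex x * ex y := by
  unfold ex
  rw [← Complex.exp_add]
  congr 1
  push_cast
  ring

lemma ex_zero : ex 0 = 1 := by
  unfold ex
  simp

/-- The Fourier transform of a fair coin. -/
noncomputable def c (u : ℝ) : ℂ := (1 + ex (-u)) / 2

lemma fourier_ex (g : ℝ → ℂ) (w : ℝ) : 𝓕 g w = ∫ v : ℝ, ex (-(v * w)) * g v := by
  rw [Real.fourier_real_eq]
  refine integral_congr_ae (Eventually.of_forall fun v => ?_)
  simp only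
  rw [Circle.smul_def, Real.fourierChar_apply, smul_eq_mul]
  rfl

lemma int_ex {g : ℝ → ℂ} (hg : Integrable g) (w : ℝ) : Integrable fun v : ℝ =>
    ex (-(v * w)) * g v := by
  refine hg.bdd_mul (c := 1) ?_ (Eventually.of_forall fun v => ?_)
  · refine Continuous.aestronglyMeasurable ?_
    unfold ex
    fun_prop
  · unfold ex
    rw [Complex.norm_exp_ofReal_mul_I]

lemma IsDens.intC (hh : IsDens β h) : Integrable fun y => (h y : ℂ) := hh.int.ofReal

lemma H_zero (hh : IsDens β h) : H h 0 = 1 := by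
  unfold H
  rw [fourier_ex]
  have : ∫ v : ℝ, ex (-(v * 0)) * (h v : ℂ) = ∫ v : ℝ, (h v : ℂ) := by
    refine integral_congr_ae (Eventually.of_forall fun v => ?_)
    simp [ex_zero]
  rw [this, integral_complex_ofReal, hh.one]
  simp

lemma H_mul (hβ : 1 < β) (hh : IsDens β h) (ξ : ℝ) : H h (β * ξ) = H h ξ * c ξ := by
  have hβ0 : 0 < β := by linarith
  unfold H c
  rw [fourier_ex, fourier_ex]
  have i0 : Integrable fun v : ℝ => ex (-(v * ξ)) * (h v : ℂ) := int_ex hh.intC ξ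
  obtain ⟨Φ, hΦ⟩ : ∃ Φ : ℝ → ℂ, Φ = fun z : ℝ => (β / 2 : ℂ) * ((ex (-(z * ξ)) * (h z : ℂ)) +
        (ex (-(z * ξ)) * (h (z - 1) : ℂ))) := ⟨_, rfl⟩
  have e1 : ∫ v : ℝ, ex (-(v * (β * ξ))) * (h v : ℂ) = ∫ v : ℝ, Φ (β * v) := by
    refine integral_congr_ae ?_
    filter_upwards [hh.fe] with v hv
    rw [hv, hΦ]
    have : -(v * (β * ξ)) = -(β * v * ξ) := by ring
    rw [this]
    push_cast
    ring
  rw [e1, Measure.integral_comp_mul_left, abs_of_pos (by positivity : 0 < β⁻¹), hΦ,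
    integral_const_mul]
  have e3 : ∀ z : ℝ, ex (-ξ) * (ex (-((z - 1) * ξ)) * (h (z - 1) : ℂ)) =
      ex (-(z * ξ)) * (h (z - 1) : ℂ) := by
    intro z
    rw [← mul_assoc, ← ex_add]
    congr 2
    ring
  have i1 : Integrable fun z : ℝ => ex (-(z * ξ)) * (h (z - 1) : ℂ) := by
    have h1 : Integrable fun z : ℝ => ex (-ξ) * (ex (-((z - 1) * ξ)) * (h (z - 1) : ℂ)) :=
      (i0.comp_sub_right 1).const_mul _
    exact h1.congr (Eventually.of_forall e3)
  rw [integral_add i0 i1]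
  have e2 : ∫ z : ℝ, ex (-(z * ξ)) * (h (z - 1) : ℂ) =
      ex (-ξ) * ∫ z : ℝ, ex (-(z * ξ)) * (h z : ℂ) := by
    rw [← integral_sub_right_eq_self (fun z : ℝ => ex (-(z * ξ)) * (h z : ℂ)) 1,
      ← integral_const_mul]
    exact (integral_congr_ae (Eventually.of_forall e3)).symm
  rw [e2, Complex.real_smul]
  generalize (∫ z : ℝ, ex (-(z * ξ)) * (h z : ℂ)) = J
  push_cast
  have hβC : (β : ℂ) ≠ 0 := by exact_mod_cast hβ0.ne'
  field_simp

lemma H_div (hβ : 1 < β) (hh : IsDens β h) (ξ : ℝ) : H h ξ = H h (ξ / β) * c (ξ / β) := by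
  have hβ0 : β ≠ 0 := by linarith
  rw [← H_mul hβ hh, mul_div_cancel₀ _ hβ0]

lemma continuous_H (hh : IsDens β h) : Continuous (H h) :=
  continuous_fourier_of_integrable hh.intC

lemma contDiff_H (hβ : 1 < β) (hh : IsDens β h) : ContDiff ℝ ∞ (H h) := by
  have hβ1 : 0 < β - 1 := by linarith
  refine Real.contDiff_fourier (N := ⊤) fun n _ => ?_
  refine Integrable.mono' (g := fun v => (1 / (β - 1)) ^ n * h v) (hh.int.const_mul _) ?_ ?_
  · have := hh.meas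
    refine Measurable.aestronglyMeasurable ?_
    fun_prop
  · filter_upwards [hh.supp] with v hv
    rw [norm_mul, norm_pow, norm_norm, norm_norm, Complex.norm_real, Real.norm_eq_abs,
      Real.norm_eq_abs, abs_of_nonneg (hh.nonneg v)]
    by_cases hvr : v ∈ Icc 0 (1 / (β - 1))
    · refine mul_le_mul_of_nonneg_right ?_ (hh.nonneg v)
      rw [abs_of_nonneg hvr.1]
      exact pow_le_pow_left₀ hvr.1 hvr.2 n
    · rw [hv hvr]
      simp

lemma norm_c (u : ℝ) : ‖c u‖ = |Real.cos (Real.pi * u)| := by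
  unfold c ex
  have e1 : (1 + Complex.exp (((2 * Real.pi * -u : ℝ) : ℂ) * Complex.I)) / 2 =
      Complex.exp (((-(Real.pi * u) : ℝ) : ℂ) * Complex.I) * ((Real.cos (Real.pi * u) : ℝ) : ℂ) := by
    rw [Complex.ofReal_cos, Complex.cos, ← mul_div_assoc, mul_add, ← Complex.exp_add,
      ← Complex.exp_add]
    push_cast
    congr 1
    have a1 : -(Real.pi * u : ℂ) * Complex.I + Real.pi * u * Complex.I = 0 := by ring
    have a2 : -(Real.pi * u : ℂ) * Complex.I + -(Real.pi * u * Complex.I) =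
      2 * Real.pi * -u * Complex.I := by ring
    rw [a1, Complex.exp_zero]
    congr 2
    rw [← a2]
    ring
  rw [e1, norm_mul, Complex.norm_exp_ofReal_mul_I, one_mul, Complex.norm_real, Real.norm_eq_abs]

lemma norm_c_le (u : ℝ) : ‖c u‖ ≤ 1 := by
  rw [norm_c]
  exact Real.abs_cos_le_one _

lemma c_zero : c 0 = 1 := by
  unfold c
  simp [ex_zero]

lemma c_eq_zero {u : ℝ} (hu : c u = 0) : ∃ k : ℤ, u = k + 1 / 2 := by
  have h1 : Real.cos (Real.pi * u) = 0 := by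
    have := norm_c u
    rw [hu, norm_zero] at this
    exact abs_eq_zero.mp this.symm
  obtain ⟨k, hk⟩ := Real.cos_eq_zero_iff.mp h1
  refine ⟨k, ?_⟩
  have hpi := Real.pi_ne_zero
  have h2 : Real.pi * u = Real.pi * (k + 1 / 2) := by
    rw [hk]
    ring
  exact mul_left_cancel₀ hpi h2

lemma contDiff_c : ContDiff ℝ ∞ c := by
  unfold c ex
  have h1 : ContDiff ℝ ∞ fun u : ℝ => (((2 * Real.pi) * -u : ℝ) : ℂ) :=
    Complex.ofRealCLM.contDiff.comp (contDiff_const.mul contDiff_neg)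
  exact (contDiff_const.add ((h1.mul contDiff_const).cexp)).div_const _

lemma continuous_c : Continuous c := contDiff_c.continuous

/-- zeros come from zeros of the coin factors -/
lemma zero_factor (hβ : 1 < β) (hh : IsDens β h) {ρ : ℝ} (hρ : ∀ ξ, |ξ| < ρ → H h ξ ≠ 0)
    (k : ℕ) : ∀ ξ, |ξ| < ρ * β ^ k → H h ξ = 0 →
    ∃ i : ℕ, 1 ≤ i ∧ i ≤ k ∧ c (ξ / β ^ i) = 0 := by
  have hβ0 : 0 < β := by linarith
  induction k with
  | zero =>
    intro ξ h1 h2
    rw [pow_zero, mul_one] at h1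
    exact absurd h2 (hρ ξ h1)
  | succ k ih =>
    intro ξ h1 h2
    rw [H_div hβ hh] at h2
    rcases mul_eq_zero.mp h2 with h3 | h3
    · have h4 : |ξ / β| < ρ * β ^ k := by
        rw [abs_div, abs_of_pos hβ0, div_lt_iff₀ hβ0]
        rw [pow_succ] at h1
        linarith
      obtain ⟨i, hi1, hi2, hi3⟩ := ih _ h4 h3
      refine ⟨i + 1, by omega, by omega, ?_⟩
      have : ξ / β ^ (i + 1) = ξ / β / β ^ i := by
        rw [pow_succ, div_div, mul_comm]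
      rw [this]
      exact hi3
    · exact ⟨1, le_rfl, by omega, by rwa [pow_one]⟩

lemma exists_rho (hh : IsDens β h) : ∃ ρ, 0 < ρ ∧ ∀ ξ, |ξ| < ρ → H h ξ ≠ 0 := by
  have h1 : ∀ᶠ ξ in 𝓝 (0 : ℝ), H h ξ ≠ 0 := by
    refine (continuous_H hh).continuousAt.eventually_ne ?_
    rw [H_zero hh]
    exact one_ne_zero
  obtain ⟨ρ, hρ, h2⟩ := Metric.eventually_nhds_iff.mp h1
  refine ⟨ρ, hρ, fun ξ hξ => h2 ?_⟩
  rwa [Real.dist_eq, sub_zero]

lemma exists_factor (hβ : 1 < β) (hh : IsDens β h) {ξ : ℝ} (hξ : H h ξ = 0) :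
    ∃ i : ℕ, 1 ≤ i ∧ ∃ k : ℤ, ξ / β ^ i = k + 1 / 2 := by
  obtain ⟨ρ, hρ, h1⟩ := exists_rho hh
  have hβ0 : 0 < β := by linarith
  obtain ⟨k, hk⟩ := pow_unbounded_of_one_lt (|ξ| / ρ) hβ
  have h2 : |ξ| < ρ * β ^ k := by
    rw [div_lt_iff₀ hρ] at hk
    linarith
  obtain ⟨i, hi, -, h3⟩ := zero_factor hβ hh h1 k ξ h2 hξ
  exact ⟨i, hi, c_eq_zero h3⟩

lemma finite_zeros (hβ : 1 < β) (hh : IsDens β h) (R : ℝ) :
    {ξ | |ξ| ≤ R ∧ H h ξ = 0}.Finite := by
  obtain ⟨ρ, hρ, h1⟩ := exists_rho hh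
  have hβ0 : 0 < β := by linarith
  obtain ⟨k, hk⟩ := pow_unbounded_of_one_lt (R / ρ) hβ
  have hfin : ((fun p : ℕ × ℤ => β ^ p.1 * ((p.2 : ℝ) + 1 / 2)) ''
      (Set.Iic k ×ˢ Set.Icc (-(⌈R⌉ + 1)) (⌈R⌉ + 1))).Finite :=
    ((Set.finite_Iic k).prod (Set.finite_Icc _ _)).image _
  refine hfin.subset ?_
  rintro ξ ⟨hξ, h0⟩
  have h2 : |ξ| < ρ * β ^ k := by
    rw [div_lt_iff₀ hρ] at hk
    linarith
  obtain ⟨i, hi, hik, h3⟩ := zero_factor hβ hh h1 k ξ h2 h0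
  obtain ⟨m, hm⟩ := c_eq_zero h3
  have hβi : (1 : ℝ) ≤ β ^ i := one_le_pow₀ hβ.le
  have h5 : ξ = β ^ i * ((m : ℝ) + 1 / 2) := by
    rw [← hm]
    field_simp
  refine ⟨(i, m), ⟨hik, ?_⟩, h5.symm⟩
  have h6 : |(m : ℝ) + 1 / 2| ≤ R := by
    calc |(m : ℝ) + 1 / 2| ≤ β ^ i * |(m : ℝ) + 1 / 2| :=
          le_mul_of_one_le_left (abs_nonneg _) hβi
      _ = |ξ| := by rw [h5, abs_mul, abs_of_pos (by positivity : (0 : ℝ) < β ^ i)]
      _ ≤ R := hξ
  rw [abs_le] at h6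
  have h7 := Int.le_ceil R
  constructor
  · have : (-(⌈R⌉ + 1 : ℤ) : ℝ) ≤ (m : ℝ) := by
      push_cast
      linarith
    exact_mod_cast this
  · have : (m : ℝ) ≤ ((⌈R⌉ + 1 : ℤ) : ℝ) := by
      push_cast
      linarith
    exact_mod_cast this

end Helper64.BC
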